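import Pool.Agent.Helper9.LD.Nb

/-!
# LD project, part B2: assembly
-/

set_option autoImplicit false

namespace Pool.Agent.Helper9.LD

open Pool.Agent.Helper2.LD

theorem pB2 (hMi : StMinj) (hD : StDich) (hK : StB2K) (hI : StB2I) (hRo : StRoot) :
    StB2 := by
  intro V Q Λ B FB W _ _ _ N e c s M lm hP hc hs hdeq
  have hC : Cx N e c s M lm := ⟨hP, hc, hs, hdeq⟩
  by_cases hex : ∃ u g w, Pt N e c s M lm (.nat true u (.core u)) g ∧ c.G.Adj u w ∧
      Opn N e c s M lm w g
  · right
    obtain ⟨u, g, w, hg, hw, hO⟩ := hex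
    refine hK N e c s M lm hC ⟨u, g, hg, ?_⟩
    rcases hD N e c s M lm hC u g hg with h | ⟨h, -⟩
    · exact h
    · exfalso
      obtain ⟨g', h1, h2⟩ := h w hw
      exact not_both hMi hRo hC hw hO h1 h2
  · left
    push Not at hex
    refine hI N e c s M lm hC fun u g hg => ?_
    rcases hD N e c s M lm hC u g hg with h | h
    · exfalso
      obtain ⟨w, hw⟩ := hc.nb u
      exact hex u g w hg hw (h w hw)
    · exact h

end Pool.Agent.Helper9.LD
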