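import Pool.Agent.Helper9.LD.Nb

/-!
# LD project, part B2: open copies of centres
-/

set_option autoImplicit false

namespace Pool.Agent.Helper9.LD

open Pool.Agent.Helper2.LD

theorem pB2K (hF : StFace) (hMi : StMinj) (hRo : StRoot) (hA : StClA) (hD : StDich) :
    StB2K := by
  intro V Q Λ B FB W _ _ _ N e c s M lm hC ⟨u0, g0, hg0, hO0⟩
  have hN := par_le hC.par
  classical
  let A : Set W := {g | ∃ u, Pt N e c s M lm (.nat true u (.core u)) g ∧
    ∀ w, c.G.Adj u w → Opn N e c s M lm w g}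
  have hlab : ∀ {u g}, Pt N e c s M lm (.nat true u (.core u)) g → lm g = {Kd.kap (c.lb u)} :=
    fun h => (pt_lab h).symm
  -- neighbours in `A`
  have nbA : ∀ {u g g' a}, Pt N e c s M lm (.nat true u (.core u)) g →
      (∀ w, c.G.Adj u w → Opn N e c s M lm w g) → M.Adj g g' → lm g' = {Kd.kap a} →
      g' ∈ A ∧ ∃ w, c.G.Adj u w ∧ c.lb w = a := by
    intro u g g' a hg hO hadj hl
    obtain ⟨x, hx⟩ : ∃ x : TV N e c s, x.1 = .nat true u (.core u) := ⟨⟨_, pt_ok hg⟩, rfl⟩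
    obtain ⟨y, ⟨hxy, hy⟩, -⟩ := (hMi.nbr N e c s M lm hC x g (hx ▸ hg)).2.2 g' hadj
    obtain ⟨w, hw, -, hwa⟩ := root_nb hC.par hC.ch hx hxy (hy.trans hl)
    refine ⟨?_, w, hw, hwa⟩
    obtain ⟨g2, h2, h3, u', h4⟩ := hO w hw
    have h5 : g' = g2 := two_eq hMi hC hadj h2 (by rw [hl, h3, hwa])
    subst h5
    refine ⟨u', h4, ?_⟩
    rcases hD N e c s M lm hC u' g' h4 with h | ⟨h, -⟩
    · exact h
    · exfalso
      obtain ⟨x', hx'⟩ : ∃ x : TV N e c s, x.1 = .nat true u' (.core u') := ⟨⟨_, pt_ok h4⟩, rfl⟩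
      obtain ⟨y', ⟨hxy', hy'⟩, -⟩ := (hMi.nbr N e c s M lm hC x' g' (hx' ▸ h4)).2.2 g hadj.symm
      obtain ⟨w', hw', -, hwa'⟩ := root_nb hC.par hC.ch hx' hxy' (hy'.trans (hlab hg))
      obtain ⟨g3, h6, h7⟩ := h w' hw'
      have h8 : g = g3 := by
        refine two_eq hMi hC hadj.symm h6 ?_
        rw [hlab hg, ← pt_lab h7, ← hwa']
        rfl
      subst h8
      have h9 := hRo N e c s M lm hC u g hg _ h7
      injection h9 with _ h9 h10
      injection h10 with h10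
      rw [h9, h10] at hw'
      exact hw'.ne rfl
  let L : A → Λ := fun g => c.lb g.2.choose
  have hL : ∀ g : A, lm g = {Kd.kap (L g)} := fun g => hlab g.2.choose_spec.1
  refine ⟨A, L, ⟨g0, u0, hg0, hO0⟩, ?_⟩
  rintro ⟨g, hgA⟩
  obtain ⟨u, hg, hO⟩ := id hgA
  have hLg : L ⟨g, hgA⟩ = c.lb u := core_inj ((hL ⟨g, hgA⟩).symm.trans (hlab hg))
  refine ⟨u, hLg, ?_, ?_, ?_⟩
  · intro w hw
    obtain ⟨g', h2, h3, -⟩ := hO w hw
    have h4 := (nbA hg hO h2 h3).1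
    refine ⟨⟨g', h4⟩, ⟨h2, core_inj ((hL ⟨g', h4⟩).symm.trans h3)⟩, ?_⟩
    rintro ⟨g2, h5⟩ ⟨h6, h7⟩
    refine Subtype.ext (two_eq hMi hC (show M.Adj g g2 from h6) h2 ?_)
    rw [h3, ← h7]
    exact hL ⟨g2, h5⟩
  · rintro ⟨g', h1⟩ h2
    obtain ⟨-, w, hw, hwa⟩ := nbA hg hO (show M.Adj g g' from h2) (hL ⟨g', h1⟩)
    exact ⟨w, hw, hwa.symm⟩
  · intro q hq
    subst hq
    obtain ⟨-, P, hP0, hP1, hPa, hPl⟩ := hA N e c s M lm hC q g true hg
      (hO (fa c true q 1) ((hF.dist N e c hC.par hC.ax q true).2.2.2.2 0))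
    have hPA : ∀ j ≤ 4 * e, P j ∈ A := by
      intro j hj
      induction j with
      | zero => rw [hP0]; exact hgA
      | succ j ih =>
        obtain ⟨u', h1, h2⟩ := ih (by omega)
        exact (nbA h1 h2 (hPa j (by omega)) (hPl (j + 1) hj)).1
    refine ⟨fun j => if h : j ≤ 4 * e then ⟨P j, hPA j h⟩ else ⟨g, hgA⟩, ?_, ?_, ?_, ?_⟩
    · exact Subtype.ext (by simpa using hP0)
    · exact Subtype.ext (by simpa using hP1)
    · intro j hj
      have h1 : j ≤ 4 * e := hj.le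
      have h2 : j + 1 ≤ 4 * e := hj
      simp only [dif_pos h1, dif_pos h2]
      exact hPa j hj
    · intro j hj
      simp only [dif_pos hj]
      exact core_inj ((hL ⟨P j, hPA j hj⟩).symm.trans (hPl j hj))

end Pool.Agent.Helper9.LD
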