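import Pool.Agent.Helper9.LD.Nb

/-!
# LD project, part B2: all ports open or all ports plugged
-/

set_option autoImplicit false

namespace Pool.Agent.Helper9.LD

open Pool.Agent.Helper2.LD

theorem pDich (hF : StFace) (hMi : StMinj) (hPo : StPort) (hA : StClA) (hB : StClB) :
    StDich := by
  intro V Q Λ B FB W _ _ _ N e c s M lm hC u g hg
  by_cases hex : ∃ w, c.G.Adj u w ∧ Opn N e c s M lm w g
  · left
    obtain ⟨w0, hw0, hO0⟩ := hex
    intro w hw
    refine hC.ax.link u (fun w => Opn N e c s M lm w g) ?_ w0 w hw0 hw hO0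
    intro q hq
    subst hq
    constructor
    · intro h
      exact (hA N e c s M lm hC q g true hg h).1
    · intro h
      exact (hA N e c s M lm hC q g false hg h).1
  · right
    push Not at hex
    constructor
    · intro w hw
      obtain ⟨g', h1, h2, h3 | h3⟩ := port_core hF hMi hPo hC hg hw
      · exact ⟨g', h1, h3⟩
      · exact absurd ⟨g', h1, h2, h3⟩ (hex w hw)
    · intro q hq
      obtain ⟨g', h1, h2, h3 | h3⟩ := port_gho hMi hPo hC hg hq
      · exact ⟨g', h1, h3⟩
      · exfalso
        subst hq
        refine hex (fa c true q 1) ((hF.dist N e c hC.par hC.ax q true).2.2.2.2 0) ?_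
        exact hB N e c s M lm hC q g hg ⟨g', h1, h2, h3⟩ true

end Pool.Agent.Helper9.LD
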