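import Pool.Agent.Helper9.LD.GhL

/-!
# LD project, part B2: Claim A
-/

set_option autoImplicit false

namespace Pool.Agent.Helper9.LD

open Pool.Agent.Helper2.LD

theorem pClA (hRg : StRg) (hTs : StTsee) (hMi : StMinj) (hCl : StCls) (hPo : StPort)
    (hG : StGch) (hF : StFace) (hFL : StFL) (hTd : StTdist) : StClA := by
  intro V Q Λ B FB W _ _ _ N e c s M lm hC q g σ hg hO
  have hN := par_le hC.par
  obtain ⟨p, hp0, hpa, hpl, hpt⟩ := hFL N e c s M lm hC q g σ hg hO
  have hlast : lm (p (2 * e)) = {Kd.kap (c.lb (an c e q))} := by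
    rw [hpl (2 * e) le_rfl, an_eq hF hC.par hC.ax q σ]
  have hpd : ∀ i j, i ≤ j → j ≤ 2 * e → M.edist (p i) (p j) ≤ ((j - i : ℕ) : ℕ∞) := fun i j hij hj =>
    chain_le p i j hij fun k _ hk => hpa k (by omega)
  obtain ⟨z', hz1, hz2, hz3⟩ := mid hTs hTd hF hC (!σ) hg hlast (by
    have := hpd 0 (2 * e) (by omega) le_rfl
    rwa [hp0] at this)
  -- the middle hub is not a ghost
  have hz4 : lm z' = {Kd.kap (c.lb (fa c (!σ) q e))} := by
    rcases hz3 with h | ⟨q3, x, x3, h3, hx, hx3, hpe⟩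
    · exact h
    · exfalso
      obtain ⟨rfl, -, h4⟩ := ghost hRg hTs hTd hMi hCl hPo hG hF hC hg h3 x x3 hx hx3 hpe hlast hz2
      obtain ⟨u', z, h5, h6⟩ := hpt (2 * e) (by omega) le_rfl
      have h7 : Rg N e c s (2 * N) (.nat true (c.ow q3) (.core (an c e q3))) := by
        refine rg_mono (by omega) (hCl.strong N e c s hC.par hC.ax hC.ch true _ _ (pt_ok h4)
          (Or.inl ⟨rfl, ?_, (fun _ h => by cases h), (fun _ h => by cases h)⟩))
        simp only [lev, GH.own, GH.ht, an_dist hF hC.par hC.ax q3]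
        omega
      have h8 := hRg.uniq' N e c s M lm hC _ _ _ h7 h4 h6
      injection h8 with _ h8 h9
      injection h9 with h9
      subst h8; subst h9
      rw [an_dist hF hC.par hC.ax q3] at h5
      omega
  -- the other port
  have hfa : c.G.Adj (c.ow q) (fa c (!σ) q 1) := (hF.dist N e c hC.par hC.ax q (!σ)).2.2.2.2 0
  have hO' : Opn N e c s M lm (fa c (!σ) q 1) g := by
    obtain ⟨x, hx⟩ : ∃ x : TV N e c s, x.1 = .nat true (c.ow q) (.core (c.ow q)) :=
      ⟨⟨_, pt_ok hg⟩, rfl⟩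
    obtain ⟨y, hy⟩ : ∃ y : TV N e c s, y.1 = .nat true (c.ow q) (.core (fa c (!σ) q 1)) :=
      ⟨⟨_, ok_face hF hC.par hC.ax (pt_ok hg) (!σ) (by omega)⟩, rfl⟩
    have hxy : (TG N e c s).Adj x y := by
      have hpb := hF.par (K := Kd N Λ B FB) N e c s hC.par hC.ax hC.ch true q (!σ) 1 le_rfl (by omega)
      refine (adj_pb y x hy ?_ ?_ ?_).symm
      · intro h
        injection h with h
        rw [h] at hfa
        exact hfa.ne rfl
      · rw [hx, hpb]; rfl
      · rw [hpb]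
        intro h
        injection h with h
        exact hfa.ne h
    obtain ⟨g1, ⟨hg1, hlg1⟩, -⟩ := (hMi.nbr N e c s M lm hC x g (hx ▸ hg)).2.1 y hxy
    have hlg1' : lm g1 = {Kd.kap (c.lb (fa c (!σ) q 1))} := by
      rw [hlg1]; change tl N e c s y.1 = _; rw [hy]; rfl
    rcases hPo.core N e c s M lm hC (c.ow q) g hg _ hfa g1 hg1 hlg1' with h | ⟨u', -, h⟩
    · exact (plug hRg hTs hMi hCl hF hC (!σ) hg1 h hz4 hz1.le hlast hz2).elim
    · exact ⟨g1, hg1, hlg1', u', h⟩
  refine ⟨hO', ?_⟩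
  -- the closed walk
  obtain ⟨p', hp0', hpa', hpl', -⟩ := hFL N e c s M lm hC q g (!σ) hg hO'
  have hpd' : ∀ i j, i ≤ j → j ≤ 2 * e → M.edist (p' i) (p' j) ≤ ((j - i : ℕ) : ℕ∞) :=
    fun i j hij hj => chain_le p' i j hij fun k _ hk => hpa' k (by omega)
  have h1 : p' e = z' := by
    refine sep_eq hMi hC ?_ (hpl' e (by omega) ▸ pln_core _) (n := (e - 0) + e)
      (le_add (le_symm ?_) hz1.le) (by omega)
    · rw [hz4, hpl' e (by omega)]
    · have := hpd' 0 e (by omega) (by omega)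
      rwa [hp0'] at this
  have h2 : p' (2 * e) = p (2 * e) := by
    refine sep_eq hMi hC ?_ (hpl' (2 * e) (by omega) ▸ pln_core _) (n := (2 * e - e) + e)
      (le_add (le_symm (hpd' e (2 * e) (by omega) le_rfl)) (h1 ▸ hz2.le)) (by omega)
    rw [hpl' (2 * e) le_rfl, hpl (2 * e) le_rfl, an_eq hF hC.par hC.ax q σ,
      an_eq hF hC.par hC.ax q (!σ)]
  -- gluing two half walks
  have glue : ∀ (τ : Bool) (a b : ℕ → W), a 0 = g → b 0 = g → (∀ j < 2 * e, M.Adj (a j) (a (j + 1))) →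
      (∀ j < 2 * e, M.Adj (b j) (b (j + 1))) →
      (∀ j ≤ 2 * e, lm (a j) = {Kd.kap (c.lb (fa c τ q j))}) →
      (∀ j ≤ 2 * e, lm (b j) = {Kd.kap (c.lb (fa c (!τ) q j))}) → a (2 * e) = b (2 * e) →
      ∃ P : ℕ → W, P 0 = g ∧ P (4 * e) = g ∧ (∀ j < 4 * e, M.Adj (P j) (P (j + 1))) ∧
        ∀ j ≤ 4 * e, lm (P j) = {Kd.kap (c.lb (fa c τ q j))} := by
    intro τ a b ha0 hb0 ha hb hla hlb hab
    refine ⟨fun j => if j ≤ 2 * e then a j else b (4 * e - j), ?_, ?_, ?_, ?_⟩
    · simpa using ha0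
    · have : ¬ 4 * e ≤ 2 * e := by omega
      simp only [this, if_false, Nat.sub_self, hb0]
    · intro j hj
      rcases lt_trichotomy j (2 * e) with h | h | h
      · simp only [if_pos h.le, if_pos (show j + 1 ≤ 2 * e by omega)]
        exact ha j h
      · subst h
        simp only [if_pos le_rfl, if_neg (show ¬ 2 * e + 1 ≤ 2 * e by omega)]
        rw [hab]
        have := (hb (2 * e - 1) (by omega)).symm
        rwa [show 2 * e - 1 + 1 = 2 * e by omega, show 2 * e - 1 = 4 * e - (2 * e + 1) by omega] at this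
      · simp only [if_neg (show ¬ j ≤ 2 * e by omega), if_neg (show ¬ j + 1 ≤ 2 * e by omega)]
        have := (hb (4 * e - (j + 1)) (by omega)).symm
        rwa [show 4 * e - (j + 1) + 1 = 4 * e - j by omega] at this
    · intro j hj
      rcases le_or_gt j (2 * e) with h | h
      · simp only [if_pos h]
        exact hla j h
      · simp only [if_neg (show ¬ j ≤ 2 * e by omega)]
        rw [hlb (4 * e - j) (by omega), (hF.dist N e c hC.par hC.ax q τ).2.2.2.1 j hj]
  cases σ with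
  | true =>
    obtain ⟨P, hP0, hP1, hPa, hPl⟩ := glue true p p' hp0 hp0' hpa hpa' hpl hpl' h2.symm
    exact ⟨P, hP0, hP1, hPa, hPl⟩
  | false =>
    obtain ⟨P, hP0, hP1, hPa, hPl⟩ := glue true p' p hp0' hp0 hpa' hpa hpl' hpl h2
    exact ⟨P, hP0, hP1, hPa, hPl⟩

end Pool.Agent.Helper9.LD
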