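import Pool.Agent.Helper9.LD.GhL

/-!
# LD project, part B2: Claim B
-/

set_option autoImplicit false

namespace Pool.Agent.Helper9.LD

open Pool.Agent.Helper2.LD

theorem pClB (hRg : StRg) (hTs : StTsee) (hMi : StMinj) (hCl : StCls) (hPo : StPort)
    (hG : StGch) (hF : StFace) (hTd : StTdist) : StClB := by
  intro V Q Λ B FB W _ _ _ N e c s M lm hC q g hg hOG σ
  have hN := par_le hC.par
  by_contra hno
  obtain ⟨x, hx⟩ : ∃ x : TV N e c s, x.1 = .nat true (c.ow q) (.core (c.ow q)) :=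
    ⟨⟨_, pt_ok hg⟩, rfl⟩
  -- the port is plugged
  have hfa : c.G.Adj (c.ow q) (fa c σ q 1) := (hF.dist N e c hC.par hC.ax q σ).2.2.2.2 0
  obtain ⟨y, hy⟩ : ∃ y : TV N e c s, y.1 = .nat true (c.ow q) (.core (fa c σ q 1)) :=
    ⟨⟨_, ok_face hF hC.par hC.ax (pt_ok hg) σ (by omega)⟩, rfl⟩
  have hxy : (TG N e c s).Adj x y := by
    have hpb := hF.par (K := Kd N Λ B FB) N e c s hC.par hC.ax hC.ch true q σ 1 le_rfl (by omega)
    refine (adj_pb y x hy ?_ ?_ ?_).symm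
    · intro h
      injection h with h
      rw [h] at hfa
      exact hfa.ne rfl
    · rw [hx, hpb]; rfl
    · rw [hpb]
      intro h
      injection h with h
      exact hfa.ne h
  obtain ⟨g1, ⟨hg1, hlg1⟩, -⟩ := (hMi.nbr N e c s M lm hC x g (hx ▸ hg)).2.1 y hxy
  have hlg1' : lm g1 = {Kd.kap (c.lb (fa c σ q 1))} := by
    rw [hlg1]; change tl N e c s y.1 = _; rw [hy]; rfl
  have hplg : Pt N e c s M lm (.nat true (c.ow q) (.core (fa c σ q 1))) g1 := by
    rcases hPo.core N e c s M lm hC (c.ow q) g hg _ hfa g1 hg1 hlg1' with h | ⟨u', -, h⟩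
    · exact h
    · exact (hno ⟨g1, hg1, hlg1', u', h⟩).elim
  -- the antipode
  obtain ⟨w, hw⟩ : ∃ w : TV N e c s, w.1 = .nat true (c.ow q) (.core (an c e q)) :=
    ⟨⟨_, by
      have := ok_face hF hC.par hC.ax (pt_ok hg) true (le_refl (2 * e))
      rwa [an_eq hF hC.par hC.ax q true] at this⟩, rfl⟩
  obtain ⟨t', ht'⟩ := pt_fwd hg x w hx
  have hlt : lm t' = {Kd.kap (c.lb (an c e q))} := by
    rw [← pe_lab ht']
    change tl N e c s w.1 = _
    rw [hw]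
    rfl
  have hxw : (TG N e c s).edist x w = ((2 * e : ℕ) : ℕ∞) := by
    have h1 := hTd.root N e c s hC.par hC.ax hC.ch x w true (c.ow q) hx (by rw [hw]; rfl)
    rw [h1, hw]
    simp only [tlev, lev, GH.own, GH.ht, an_dist hF hC.par hC.ax q]
    rfl
  obtain ⟨z', hz1, hz2, hz3⟩ := mid hTs hTd hF hC σ hg hlt
    ((pe_dist ht' (by omega)).1 hxw).le
  rcases hz3 with h | ⟨q3, x', x3, h3, hx', hx3, hpe⟩
  · exact plug hRg hTs hMi hCl hF hC σ hg1 hplg h hz1.le hlt hz2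
  · obtain ⟨rfl, ⟨g2, hg2, h4⟩, -⟩ :=
      ghost hRg hTs hTd hMi hCl hPo hG hF hC hg h3 x' x3 hx' hx3 hpe hlt hz2
    obtain ⟨g3, hg3, hlg3, q', h5⟩ := hOG
    have h6 : g2 = g3 := by
      refine two_eq hMi hC hg2 hg3 ?_
      rw [← pt_lab h4, hlg3]
      rfl
    subst h6
    have h7 : Rg N e c s (2 * N) (.nat true (c.ow q3) (.gho q3 1)) :=
      (hCl.rg N e c s hC.par hC.ax hC.ch _ (pt_ok h4) (Or.inr (Or.inl ⟨c.ow q3, q3, rfl, rfl⟩))).1
    have h8 := hRg.uniq' N e c s M lm hC _ _ _ h7 h4 h5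
    injection h8 with h8
    exact Bool.noConfusion h8

end Pool.Agent.Helper9.LD
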