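import Pool.Agent.Helper9.LD.Tool

/-!
# LD project, part B2: lemmas for Claims A and B
-/

set_option autoImplicit false

namespace Pool.Agent.Helper9.LD

open Pool.Agent.Helper2.LD

section

variable {V Q Λ B FB W : Type} [Fintype Λ] [Fintype B] [Fintype FB] {N e : ℕ}
  {c : Core V Q Λ B FB} {s : Ch V Q} {M : SimpleGraph W} {lm : W → Finset (Kd N Λ B FB)}

omit [Fintype Λ] [Fintype B] [Fintype FB] in
theorem dist_self (c : Core V Q Λ B FB) (u : V) : c.G.dist u u = 0 := SimpleGraph.dist_self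

/-- What a centre sees: a hub with a kind `kap` or `gam` in its label is natural. -/
theorem root_nat (hTs : StTsee) (hTd : StTdist) (hP : Par N e) (hc : CoreAx N e c)
    (hs : ChAx N c s) {x y : TV N e c s} {u : V} (hx : x.1 = .nat true u (.core u)) {d : ℕ}
    (hd : (TG N e c s).edist x y = (d : ℕ∞)) (hd' : d < 2 * N) {κ : Kd N Λ B FB}
    (hκ : κ ∈ tL N e c s y) (hκ' : (∃ l, κ = Kd.kap l) ∨ ∃ b f, κ = Kd.gam b f) :
    ∃ h, y.1 = .nat true u h ∧ lev N c u h = d ∧ ∀ z l, h ≠ .fan z l := by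
  have hpc : pc x.1 = some (true, u) := by rw [hx]; rfl
  have hle : (TG N e c s).edist x y ≤ ((2 * N : ℕ) : ℕ∞) := by
    rw [hd]; exact_mod_cast hd'.le
  have hpy : pc y.1 = some (true, u) := by
    rcases hTd.near N e c s hP hc hs x y true u hpc hle with h | ⟨j, h⟩
    · exact h
    · exfalso
      have : κ ∈ tl N e c s y.1 := hκ
      rw [h] at this
      simp only [tl, Finset.mem_union, Finset.mem_insert, Finset.mem_singleton, tyl,
        Finset.mem_filter, Finset.mem_univ, true_and, piK] at this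
      rcases hκ' with ⟨l, rfl⟩ | ⟨b, f, rfl⟩ <;> simp at this
  have hroot := hTd.root N e c s hP hc hs x y true u hx hpy
  rw [hd] at hroot
  have hlev : d = tlev N c y.1 := by exact_mod_cast hroot
  obtain ⟨y, hy⟩ := y
  cases y with
  | nat b' u' h =>
    simp only [pc, Option.some.injEq, Prod.mk.injEq] at hpy
    obtain ⟨rfl, rfl⟩ := hpy
    refine ⟨h, rfl, hlev.symm, fun z l hh => ?_⟩
    subst hh
    simp only [tlev, lev, GH.ht] at hlev
    omega
  | cap b' u' h =>
    exfalso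
    have h1 := hTs.cap N e c s hP hc hs x ⟨.cap b' u' h, hy⟩ true u (.core u) b' u' h hx rfl
    rw [hd] at h1
    have h2 : lev (K := Kd N Λ B FB) N c u (.core u) = 0 := by simp [lev, GH.own, GH.ht]
    rw [h2] at h1
    have h3 : 2 * N + 1 ≤ d + 0 := by
      have : dep N true = 2 * N := by simp [dep]
      rw [this] at h1
      exact_mod_cast h1
    omega
  | pth b' u' j => simp [pc] at hpy
  | rt => simp [pc] at hpy

/-- What a centre sees: kinds `kap`. -/
theorem root_kap (hTs : StTsee) (hTd : StTdist) (hP : Par N e) (hc : CoreAx N e c)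
    (hs : ChAx N c s) {x y : TV N e c s} {u : V} (hx : x.1 = .nat true u (.core u)) {d : ℕ}
    (hd : (TG N e c s).edist x y = (d : ℕ∞)) (hd' : d < 2 * N) {l : Λ}
    (hκ : Kd.kap l ∈ tL N e c s y) :
    (∃ z, y.1 = .nat true u (.core z) ∧ c.lb z = l ∧ c.G.dist u z = d) ∨
      ∃ q3, y.1 = .nat true u (.gho q3 e) ∧ c.G.dist u (c.ow q3) + e = d := by
  obtain ⟨h, h1, h2, h3⟩ := root_nat hTs hTd hP hc hs hx hd hd' hκ (Or.inl ⟨l, rfl⟩)
  have hκ' : Kd.kap l ∈ gl N e c h := by
    have : Kd.kap l ∈ tl N e c s y.1 := hκ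
    rwa [h1] at this
  cases h with
  | core z =>
    rw [mem_core] at hκ'
    injection hκ' with hκ'
    exact Or.inl ⟨z, h1, hκ'.symm, by simpa [lev, GH.own, GH.ht] using h2⟩
  | gho q3 j =>
    by_cases hj : j = e
    · subst hj
      exact Or.inr ⟨q3, h1, by simpa [lev, GH.own, GH.ht] using h2⟩
    · rw [mem_gho hj] at hκ'
      rcases hκ' with h | h <;> simp [piK] at h
  | tru z j =>
    rw [mem_tru] at hκ'
    rcases hκ' with h | h <;> simp [piK] at h
  | fan z l' => exact absurd rfl (h3 z l')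

/-- What a centre sees: kinds `gam`. -/
theorem root_gam (hTs : StTsee) (hTd : StTdist) (hP : Par N e) (hc : CoreAx N e c)
    (hs : ChAx N c s) {x y : TV N e c s} {u : V} (hx : x.1 = .nat true u (.core u)) {d : ℕ}
    (hd : (TG N e c s).edist x y = (d : ℕ∞)) (hd' : d < 2 * N) {b : B} {f : FB}
    (hκ : Kd.gam b f ∈ tL N e c s y) :
    ∃ q3 j, j ≠ e ∧ y.1 = .nat true u (.gho q3 j) ∧ c.bs (c.lb (c.ow q3)) = b ∧ c.fl q3 = f ∧
      c.G.dist u (c.ow q3) + j = d := by
  obtain ⟨h, h1, h2, h3⟩ := root_nat hTs hTd hP hc hs hx hd hd' hκ (Or.inr ⟨b, f, rfl⟩)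
  have hκ' : Kd.gam b f ∈ gl N e c h := by
    have : Kd.gam b f ∈ tl N e c s y.1 := hκ
    rwa [h1] at this
  cases h with
  | core z => rw [mem_core] at hκ'; simp at hκ'
  | gho q3 j =>
    by_cases hj : j = e
    · subst hj
      rw [mem_gho_e] at hκ'
      rcases hκ' with h | h <;> simp at h
    · rw [mem_gho hj] at hκ'
      rcases hκ' with h | h
      · injection h with h4 h5
        exact ⟨q3, j, hj, h1, h4.symm, h5.symm, by simpa [lev, GH.own, GH.ht] using h2⟩
      · simp [piK] at h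
  | tru z j =>
    rw [mem_tru] at hκ'
    rcases hκ' with h | h <;> simp [piK] at h
  | fan z l' => exact absurd rfl (h3 z l')

/-- The antipode of a corner. -/
abbrev an (c : Core V Q Λ B FB) (e : ℕ) (q : Q) : V := c.ow ((c.nx^[2 * e]) q)

omit [Fintype Λ] [Fintype B] [Fintype FB] in
theorem an_eq (hF : StFace) (hP : Par N e) (hc : CoreAx N e c) (q : Q) (σ : Bool) :
    fa c σ q (2 * e) = an c e q := by
  cases σ with
  | true => exact (hF.dist N e c hP hc q true).2.2.1
  | false =>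
    have h1 := (hF.dist N e c hP hc q true).2.1
    rw [(hF.dist N e c hP hc q true).2.2.1] at h1
    exact h1.symm

omit [Fintype Λ] [Fintype B] [Fintype FB] in
theorem an_dist (hF : StFace) (hP : Par N e) (hc : CoreAx N e c) (q : Q) :
    c.G.dist (c.ow q) (an c e q) = 2 * e := by
  have h1 := (hF.dist N e c hP hc q true).1 (2 * e) le_rfl
  rwa [an_eq hF hP hc q true] at h1

/-- A hub which sees the label of the antipode. -/
theorem see_an (hTs : StTsee) (hF : StFace) (hC : Cx N e c s M lm) {q : Q}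
    {h : GH V Q (Kd N Λ B FB)} {g g' : W} (x y : TV N e c s)
    (hx : x.1 = .nat true (c.ow q) h) (hh : ∀ j, h ≠ .tru (c.ow q) j)
    (hh' : ∀ l, h ≠ .fan (c.ow q) l)
    (hp : PairEq N e (TG N e c s) (tL N e c s) M lm x y g g')
    (hl : lm g' = {Kd.kap (c.lb (an c e q))}) {d : ℕ}
    (hd : (TG N e c s).edist x y = (d : ℕ∞)) (hd' : d < 2 * N) :
    y.1 = .nat true (c.ow q) (.core (an c e q)) := by
  have hN := par_le hC.par
  obtain ⟨z, h1, h2⟩ := hTs.core N e c s hC.par hC.ax hC.ch x y true (c.ow q) h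
    (c.lb (an c e q)) d hx hh hh' hd hd'.le (by omega) ((pe_lab hp).trans hl)
  have h3 : c.G.dist (c.ow q) z ≤ 2 * N := ok_core (N := N) (e := e) (c := c) (s := s) (b := true)
    (by omega) (h1 ▸ y.2)
  have h4 := an_dist hF hC.par hC.ax q
  have : z = an c e q := k5n hC.ax (u := c.ow q) (by omega) (by omega) (by rw [h2])
  rw [h1, this]

omit [Fintype Λ] [Fintype B] [Fintype FB] in
/-- The ghosts of a corner in a piece. -/
theorem ok_gho {q3 : Q} {u : V} (h : okT N e c s (.nat true u (.core u)))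
    (h3 : c.ow q3 = u) {j : ℕ} (hj : 1 ≤ j) (hj' : j ≤ 2 * N) :
    okT N e c s (.nat true u (.gho q3 j) : TH V Q (Kd N Λ B FB)) := by
  subst h3
  refine ⟨h.1, ⟨hj, hj'⟩, Or.inl ?_⟩
  simp [lev, GH.own, GH.ht, dep]
  exact hj'

omit [Fintype Λ] [Fintype B] [Fintype FB] in
theorem ok_face (hF : StFace) (hP : Par N e) (hc : CoreAx N e c) {q : Q}
    (h : okT N e c s (.nat true (c.ow q) (.core (c.ow q)) : TH V Q (Kd N Λ B FB))) (σ : Bool)
    {j : ℕ} (hj : j ≤ 2 * e) :
    okT N e c s (.nat true (c.ow q) (.core (fa c σ q j)) : TH V Q (Kd N Λ B FB)) := by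
  have hN := par_le hP
  refine ⟨h.1, trivial, Or.inl ?_⟩
  have := (hF.dist N e c hP hc q σ).1 j hj
  simp only [lev, GH.own, GH.ht, dep, if_true, this]
  omega

/-- The middle of a geodesic to the antipode. -/
theorem mid (hTs : StTsee) (hTd : StTdist) (hF : StFace) (hC : Cx N e c s M lm) {q : Q}
    {g t' : W} (σ : Bool) (hg : Pt N e c s M lm (.nat true (c.ow q) (.core (c.ow q))) g)
    (hl : lm t' = {Kd.kap (c.lb (an c e q))}) (hd : M.edist g t' ≤ ((2 * e : ℕ) : ℕ∞)) :
    ∃ z', M.edist g z' = (e : ℕ∞) ∧ M.edist z' t' = (e : ℕ∞) ∧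
      (lm z' = {Kd.kap (c.lb (fa c σ q e))} ∨
        ∃ (q3 : Q) (x x3 : TV N e c s), c.ow q3 = c.ow q ∧
          x.1 = .nat true (c.ow q) (.core (c.ow q)) ∧ x3.1 = .nat true (c.ow q) (.gho q3 e) ∧
          PairEq N e (TG N e c s) (tL N e c s) M lm x x3 g z') := by
  have hN := par_le hC.par
  have hok := pt_ok hg
  obtain ⟨x, hx⟩ : ∃ x : TV N e c s, x.1 = .nat true (c.ow q) (.core (c.ow q)) := ⟨⟨_, hok⟩, rfl⟩
  obtain ⟨t, ht⟩ := pt_bwd hg x hx t'
  obtain ⟨d, hd1, hd2⟩ := exists_eq_of_le hd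
  have hd3 : (TG N e c s).edist x t = (d : ℕ∞) := (pe_dist ht (by omega)).2 hd2
  have ht1 : t.1 = .nat true (c.ow q) (.core (an c e q)) :=
    see_an hTs hF hC x t hx (fun j h => by cases h) (fun j h => by cases h) ht hl hd3 (by omega)
  have hd4 : d = 2 * e := by
    have h1 := hTd.root N e c s hC.par hC.ax hC.ch x t true (c.ow q) hx (by rw [ht1]; rfl)
    rw [hd3, ht1] at h1
    have h2 : d = c.G.dist (c.ow q) (an c e q) + 0 := by exact_mod_cast h1
    rw [an_dist hF hC.par hC.ax q] at h2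
    exact h2
  subst hd4
  obtain ⟨z0, hz0⟩ : ∃ z0 : TV N e c s, z0.1 = .nat true (c.ow q) (.gho q e) :=
    ⟨⟨_, ok_gho hok rfl (by omega) (by omega)⟩, rfl⟩
  have h1 : (TG N e c s).edist x z0 = (e : ℕ∞) := by
    have h1 := hTd.root N e c s hC.par hC.ax hC.ch x z0 true (c.ow q) hx (by rw [hz0]; rfl)
    rw [h1, hz0]
    simp [tlev, lev, GH.own, GH.ht]
  have h2 : (TG N e c s).edist z0 t = (e : ℕ∞) := by
    have h2 := (hF.gho N e c s hC.par hC.ax hC.ch q q e z0 t rfl hz0
      (by rw [ht1, ← an_eq hF hC.par hC.ax q true]) (by omega) (by omega)).1 rfl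
    rw [h2]
    exact_mod_cast (by omega : 2 * e - e = e)
  have h3 : Kd.kap (c.lb (fa c σ q e)) ∈ tL N e c s z0 := by
    change _ ∈ tl N e c s z0.1
    rw [hz0]
    change _ ∈ gl N e c (.gho q e)
    rw [mem_gho_e]
    cases σ with
    | true => exact Or.inl rfl
    | false =>
      right
      have h4 := (hF.dist N e c hC.par hC.ax q false).2.2.2.1 e (by omega)
      rw [show 4 * e - e = 3 * e by omega] at h4
      rw [← h4]
      rfl
  obtain ⟨z', h4, h5, h6⟩ := pe_mid ht (p := e) (q := e) le_rfl le_rfl (by omega)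
    (by rw [hd3]; exact_mod_cast (by omega : 2 * e = e + e)) h1 h2 h3
  refine ⟨z', h4, h5, ?_⟩
  obtain ⟨tz, htz⟩ := pt_bwd hg x hx z'
  have h7 : (TG N e c s).edist x tz = (e : ℕ∞) := (pe_dist htz (by omega)).2 h4
  rcases root_kap hTs hTd hC.par hC.ax hC.ch hx h7 (by omega)
    (show Kd.kap (c.lb (fa c σ q e)) ∈ tL N e c s tz by rw [pe_lab htz]; exact h6) with
    ⟨z, h8, h9, h10⟩ | ⟨q3, h8, h9⟩
  · left
    rw [← pe_lab htz]
    change tl N e c s tz.1 = _
    rw [h8]
    change {Kd.kap (c.lb z)} = _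
    rw [h9]
  · right
    have : c.G.dist (c.ow q) (c.ow q3) = 0 := by omega
    have h10 : c.ow q = c.ow q3 := hC.ax.conn.dist_eq_zero_iff.1 this
    exact ⟨q3, x, tz, h10.symm, hx, h8, htz⟩

/-- A plugged port and the label of the middle of the face. -/
theorem plug (hRg : StRg) (hTs : StTsee) (hMi : StMinj) (hCl : StCls) (hF : StFace)
    (hC : Cx N e c s M lm) {q : Q} {g g1 z' t' : W} (σ : Bool) (hadj : M.Adj g g1)
    (h1 : Pt N e c s M lm (.nat true (c.ow q) (.core (fa c σ q 1))) g1)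
    (hz : lm z' = {Kd.kap (c.lb (fa c σ q e))}) (hz' : M.edist g z' ≤ (e : ℕ∞))
    (ht : lm t' = {Kd.kap (c.lb (an c e q))}) (ht' : M.edist z' t' = (e : ℕ∞)) : False := by
  have hN := par_le hC.par
  have hfd := hF.dist N e c hC.par hC.ax q σ
  have hok0 : okT N e c s (.nat true (c.ow q) (.core (c.ow q)) : TH V Q (Kd N Λ B FB)) := by
    refine ⟨(pt_ok h1).1, trivial, Or.inl ?_⟩
    simp [lev, GH.own, GH.ht]
  have hok : ∀ j, j ≤ 2 * e → okT N e c s
      (.nat true (c.ow q) (.core (fa c σ q j)) : TH V Q (Kd N Λ B FB)) := fun j hj =>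
    ok_face hF hC.par hC.ax hok0 σ hj
  have hf0 : fa c σ q 0 = c.ow q := rfl
  -- the chain
  let X : ℕ → TV N e c s := fun j => if h : j + 1 ≤ 2 * e then
    ⟨.nat true (c.ow q) (.core (fa c σ q (j + 1))), hok (j + 1) h⟩ else ⟨_, hok0⟩
  have hX : ∀ j, j + 1 ≤ 2 * e → (X j).1 = .nat true (c.ow q) (.core (fa c σ q (j + 1))) := by
    intro j hj
    exact congrArg Subtype.val (dif_pos hj)
  have hXadj : ∀ j < e - 1, (TG N e c s).Adj (X j) (X (j + 1)) := by
    intro j hj
    have hp := hF.par (K := Kd N Λ B FB) N e c s hC.par hC.ax hC.ch true q σ (j + 1 + 1)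
      (by omega) (by omega)
    rw [show j + 1 + 1 - 1 = j + 1 by omega] at hp
    refine (adj_pb (X (j + 1)) (X j) (hX (j + 1) (by omega)) ?_ ?_ ?_).symm
    · intro h
      injection h with h
      have := hfd.1 (j + 1 + 1) (by omega)
      rw [h] at this
      simp at this
    · rw [hX j (by omega), hp]
    · rw [hp]
      intro h
      injection h with h
      have h2 := hfd.1 (j + 1 + 1) (by omega)
      rw [← h, hfd.1 (j + 1) (by omega)] at h2
      omega
  have hX0 : Rg N e c s (2 * N) (X 0).1 := by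
    rw [hX 0 (by omega)]
    refine (hCl.rg N e c s hC.par hC.ax hC.ch _ (hok 1 (by omega)) (Or.inl ?_)).1
    exact ⟨c.ow q, fa c σ q 1, hfd.2.2.2.2 0, rfl⟩
  have hXs : ∀ j, 1 ≤ j → j ≤ e - 1 → Rg N e c s (2 * N - 1) (X j).1 := by
    intro j hj hj'
    rw [hX j (by omega)]
    refine hCl.strong N e c s hC.par hC.ax hC.ch true _ _ (hok (j + 1) (by omega)) (Or.inl ⟨rfl, ?_,
      (fun _ h => by cases h), (fun _ h => by cases h)⟩)
    simp only [lev, GH.own, GH.ht, hfd.1 (j + 1) (by omega)]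
    omega
  obtain ⟨γ, hγ0, hγ, hγa⟩ := chain hRg hC (e - 1) X hXadj hX0 hXs
    (by rw [hX 0 (by omega)]; exact h1)
  have h2 : Pt N e c s M lm (.nat true (c.ow q) (.core (fa c σ q e))) (γ (e - 1)) := by
    have := hγ (e - 1) le_rfl
    rwa [hX (e - 1) (by omega), show e - 1 + 1 = e by omega] at this
  have h3 : M.edist g1 (γ (e - 1)) ≤ ((e - 1 - 0 : ℕ) : ℕ∞) := by
    rw [← hγ0]
    exact chain_le γ 0 (e - 1) (by omega) fun k _ hk => hγa k hk
  have h4 : M.edist z' (γ (e - 1)) ≤ ((e + (1 + (e - 1 - 0)) : ℕ) : ℕ∞) :=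
    le_add (le_symm hz') (le_add (adj_le hadj) h3)
  have h5 : z' = γ (e - 1) := by
    refine sep_eq hMi hC ?_ (hz ▸ pln_core _) h4 (by omega)
    rw [hz, ← pt_lab h2]
    rfl
  rw [← h5] at h2
  obtain ⟨x, hx⟩ : ∃ x : TV N e c s, x.1 = .nat true (c.ow q) (.core (fa c σ q e)) :=
    ⟨⟨_, pt_ok h2⟩, rfl⟩
  obtain ⟨t2, ht2⟩ := pt_bwd h2 x hx t'
  have h6 : (TG N e c s).edist x t2 = (e : ℕ∞) := (pe_dist ht2 (by omega)).2 ht'
  have h7 := see_an hTs hF hC x t2 hx (fun j h => by cases h) (fun j h => by cases h) ht2 ht h6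
    (by omega)
  have h8 := hF.anti N e c s hC.par hC.ax hC.ch q σ e x t2 hx
    (by rw [h7, ← an_eq hF hC.par hC.ax q true]) (by omega)
  rw [h6] at h8
  have : e = e + 2 * e := by exact_mod_cast h8
  omega

/-- The ghost lemma. -/
theorem ghost (hRg : StRg) (hTs : StTsee) (hTd : StTdist) (hMi : StMinj) (hCl : StCls)
    (hPo : StPort) (hG : StGch) (hF : StFace) (hC : Cx N e c s M lm) {q q3 : Q} {g z' t' : W}
    (hg : Pt N e c s M lm (.nat true (c.ow q) (.core (c.ow q))) g) (h3 : c.ow q3 = c.ow q)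
    (x x3 : TV N e c s) (hx : x.1 = .nat true (c.ow q) (.core (c.ow q)))
    (hx3 : x3.1 = .nat true (c.ow q) (.gho q3 e))
    (hp : PairEq N e (TG N e c s) (tL N e c s) M lm x x3 g z')
    (ht : lm t' = {Kd.kap (c.lb (an c e q))}) (ht' : M.edist z' t' = (e : ℕ∞)) :
    q3 = q ∧ (∃ g1, M.Adj g g1 ∧ Pt N e c s M lm (.nat true (c.ow q) (.gho q 1)) g1) ∧
      Pt N e c s M lm (.nat true (c.ow q) (.core (an c e q))) t' := by
  have hN := par_le hC.par
  have hok := pt_ok hg
  have hokg : ∀ j, 1 ≤ j → j ≤ 2 * N → okT N e c s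
      (.nat true (c.ow q) (.gho q3 j) : TH V Q (Kd N Λ B FB)) := fun j h1 h2 =>
    ok_gho hok h3 h1 h2
  have hroot : ∀ y : TV N e c s, ∀ j, 1 ≤ j → y.1 = .nat true (c.ow q) (.gho q3 j) →
      (TG N e c s).edist x y = (j : ℕ∞) := fun y j _ hy => by
    have h1 := hTd.root N e c s hC.par hC.ax hC.ch x y true (c.ow q) hx (by rw [hy]; rfl)
    rw [h1, hy]
    simp [tlev, lev, GH.own, GH.ht, h3]
  have hz'g : M.edist g z' = (e : ℕ∞) :=
    (pe_dist hp (by omega)).1 (hroot x3 e (by omega) hx3)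
  -- the first ghost
  have hadjT : ∀ (y y' : TV N e c s) (j : ℕ), 1 ≤ j → y.1 = .nat true (c.ow q) (.gho q3 j) →
      y'.1 = .nat true (c.ow q) (.gho q3 (j + 1)) → (TG N e c s).Adj y y' := by
    intro y y' j hj hy hy'
    have hpb : pb N e c s true (c.ow q) (.gho q3 (j + 1) : GH V Q (Kd N Λ B FB)) = .gho q3 j := by
      simp only [pb, GH.dp]
      rw [if_neg (by omega), Nat.add_sub_cancel]
    refine (adj_pb y' y hy' (fun h => by cases h) (by rw [hy, hpb]) ?_).symm
    rw [hpb]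
    intro h
    injection h with _ h
    omega
  obtain ⟨y1, hy1⟩ : ∃ y : TV N e c s, y.1 = .nat true (c.ow q) (.gho q3 1) :=
    ⟨⟨_, hokg 1 le_rfl (by omega)⟩, rfl⟩
  have hxy1 : (TG N e c s).Adj x y1 := by
    have hpb : pb N e c s true (c.ow q) (.gho q3 1 : GH V Q (Kd N Λ B FB)) = .core (c.ow q) := by
      simp only [pb, GH.dp]
      rw [if_pos le_rfl, h3]
    refine (adj_pb y1 x hy1 (fun h => by cases h) (by rw [hx, hpb]) ?_).symm
    rw [hpb]
    intro h
    cases h
  obtain ⟨g1, ⟨hg1, hlg1⟩, -⟩ := (hMi.nbr N e c s M lm hC x g (hx ▸ hg)).2.1 y1 hxy1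
  have hlg1' : lm g1 = gl N e c (.gho q3 1) := by
    rw [hlg1]; change tl N e c s y1.1 = _; rw [hy1]; rfl
  -- the point before `z'`
  obtain ⟨y2, hy2⟩ : ∃ y : TV N e c s, y.1 = .nat true (c.ow q) (.gho q3 (e - 1)) :=
    ⟨⟨_, hokg (e - 1) (by omega) (by omega)⟩, rfl⟩
  have hee : e - 1 + 1 = e := by omega
  have h23 : (TG N e c s).edist y2 x3 = ((1 : ℕ) : ℕ∞) := by
    rw [SimpleGraph.edist_eq_one_iff_adj.2 (hadjT y2 x3 (e - 1) (by omega) hy2 (by rw [hx3, hee]))]
    rfl
  have hκ : Kd.gam (c.bs (c.lb (c.ow q3))) (c.fl q3) ∈ tL N e c s y2 := by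
    change _ ∈ tl N e c s y2.1
    rw [hy2]
    exact (mem_gho (by omega)).2 (Or.inl rfl)
  obtain ⟨z1, hz1, hz1', hκ1⟩ := pe_mid hp (p := e - 1) (q := 1) (by omega) (by omega) (by omega)
    (by rw [hroot x3 e (by omega) hx3, hee]) (hroot y2 (e - 1) (by omega) hy2) h23 hκ
  have hz1z : M.Adj z1 z' := SimpleGraph.edist_eq_one_iff_adj.1 (by rw [hz1']; rfl)
  obtain ⟨t1, ht1⟩ := pt_bwd hg x hx z1
  have hlz1 : lm z1 = gl N e c (.gho q3 (e - 1)) := by
    obtain ⟨q4, j, hj, h4, h5, h6, h7⟩ := root_gam hTs hTd hC.par hC.ax hC.ch hx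
      ((pe_dist ht1 (by omega)).2 hz1) (by omega)
      (show Kd.gam (c.bs (c.lb (c.ow q3))) (c.fl q3) ∈ tL N e c s t1 by rw [pe_lab ht1]; exact hκ1)
    have h8 : c.ow q4 = c.ow q3 := k5n hC.ax (u := c.ow q) (N := N) (by omega)
      (by rw [h3, dist_self]; omega) h5
    rw [h8, h3, dist_self] at h7
    rw [← pe_lab ht1]
    change tl N e c s t1.1 = _
    rw [h4]
    change gl N e c (.gho q4 j) = _
    rw [hC.ax.k8 q4 q3 h8 h6, show j = e - 1 by omega]
  have hplz1 : PlnL N (lm z1) := by rw [hlz1]; exact pln_gho (by omega)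
  rcases hPo.gho N e c s M lm hC (c.ow q) g hg q3 h3 g1 hg1 hlg1' with hpl | ⟨q', hq'1, hq'2, hfr⟩
  · -- plugged
    let X : ℕ → TV N e c s := fun j => if h : j + 1 ≤ 2 * N then
      ⟨.nat true (c.ow q) (.gho q3 (j + 1)), hokg (j + 1) (by omega) h⟩ else ⟨_, hok⟩
    have hX : ∀ j, j + 1 ≤ 2 * N → (X j).1 = .nat true (c.ow q) (.gho q3 (j + 1)) := by
      intro j hj
      exact congrArg Subtype.val (dif_pos hj)
    have hX0 : Rg N e c s (2 * N) (X 0).1 := by
      rw [hX 0 (by omega)]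
      exact (hCl.rg N e c s hC.par hC.ax hC.ch _ (hokg 1 (by omega) (by omega))
        (Or.inr (Or.inl ⟨c.ow q, q3, h3, rfl⟩))).1
    have hXs : ∀ j, 1 ≤ j → j ≤ 2 * e - 2 → Rg N e c s (2 * N - 1) (X j).1 := by
      intro j hj hj'
      rw [hX j (by omega)]
      refine hCl.strong N e c s hC.par hC.ax hC.ch true _ _ (hokg (j + 1) (by omega) (by omega))
        (Or.inl ⟨rfl, ?_, (fun _ h => by cases h), (fun _ h => by cases h)⟩)
      simp only [lev, GH.own, GH.ht]
      omega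
    obtain ⟨γ, hγ0, hγ, hγa⟩ := chain hRg hC (2 * e - 2) X
      (fun j hj => hadjT _ _ (j + 1) (by omega) (hX j (by omega)) (hX (j + 1) (by omega))) hX0 hXs
      (by rw [hX 0 (by omega)]; exact hpl)
    have hγ' : ∀ j, j ≤ 2 * e - 2 →
        Pt N e c s M lm (.nat true (c.ow q) (.gho q3 (j + 1))) (γ j) := fun j hj => by
      have := hγ j hj
      rwa [hX j (by omega)] at this
    have h4 : z1 = γ (e - 2) := by
      have h5 : M.edist g1 (γ (e - 2)) ≤ ((e - 2 - 0 : ℕ) : ℕ∞) := by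
        rw [← hγ0]
        exact chain_le γ 0 (e - 2) (by omega) fun k _ hk => hγa k (by omega)
      refine sep_eq hMi hC ?_ hplz1 (le_add (le_symm hz1.le) (le_add (adj_le hg1) h5)) (by omega)
      rw [hlz1, ← pt_lab (hγ' (e - 2) (by omega)), show e - 2 + 1 = e - 1 by omega]
      rfl
    have h5 : z' = γ (e - 1) := by
      refine two_eq hMi hC hz1z (g' := γ (e - 1)) ?_ ?_
      · rw [h4]
        have := hγa (e - 2) (by omega)
        rwa [show e - 2 + 1 = e - 1 by omega] at this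
      · rw [← pt_lab (hγ' (e - 1) (by omega)), ← pe_lab hp, hee]
        change tl N e c s x3.1 = _
        rw [hx3]
    have h6 : Pt N e c s M lm x3.1 z' := by
      rw [hx3, h5]
      have := hγ' (e - 1) (by omega)
      rwa [hee] at this
    obtain ⟨t2, ht2⟩ := pt_bwd h6 x3 rfl t'
    have h7 : (TG N e c s).edist x3 t2 = (e : ℕ∞) := (pe_dist ht2 (by omega)).2 ht'
    have h8 := see_an hTs hF hC x3 t2 hx3 (fun j h => by cases h) (fun j h => by cases h) ht2 ht h7
      (by omega)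
    have h9 := hF.gho N e c s hC.par hC.ax hC.ch q q3 e x3 t2 h3 hx3
      (by rw [h8, ← an_eq hF hC.par hC.ax q true]) (by omega) (by omega)
    have h10 : q3 = q := by
      by_contra hne
      have := h9.2 hne
      rw [h7] at this
      have : e = e + 2 * e := by exact_mod_cast this
      omega
    subst h10
    refine ⟨rfl, ⟨g1, hg1, hpl⟩, ?_⟩
    -- the antipode
    have h11 : Rg N e c s (2 * N - 1) t2.1 := by
      rw [h8]
      refine hCl.strong N e c s hC.par hC.ax hC.ch true _ _ (h8 ▸ t2.2)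
        (Or.inl ⟨rfl, ?_, (fun _ h => by cases h), (fun _ h => by cases h)⟩)
      simp only [lev, GH.own, GH.ht, an_dist hF hC.par hC.ax q3]
      omega
    obtain ⟨g2, hg2, -⟩ := hRg.uniq N e c s M lm hC _ (rg_mono (by omega) h11)
    have h12 : (TG N e c s).Adj (X (2 * e - 2)) t2 := by
      rw [← SimpleGraph.edist_eq_one_iff_adj]
      have := (hF.gho N e c s hC.par hC.ax hC.ch q3 q3 (2 * e - 1) (X (2 * e - 2)) t2 rfl
        (by rw [hX _ (by omega), show 2 * e - 2 + 1 = 2 * e - 1 by omega])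
        (by rw [h8, ← an_eq hF hC.par hC.ax q3 true]) (by omega) (by omega)).1 rfl
      rw [this, show 2 * e - (2 * e - 1) = 1 by omega]
      rfl
    have h13 : M.Adj (γ (2 * e - 2)) g2 := sstar hRg hC _ _ h12
      (rg_mono (by omega) (hXs (2 * e - 2) (by omega) le_rfl)) h11 (hγ _ le_rfl) hg2
    have h14 : M.edist (γ (e - 1)) g2 ≤ ((2 * e - 2 - (e - 1) + 1 : ℕ) : ℕ∞) :=
      le_add (chain_le γ (e - 1) (2 * e - 2) (by omega) fun k _ hk => hγa k hk) (adj_le h13)
    rw [← h5] at h14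
    have h15 : t' = g2 := by
      refine sep_eq hMi hC ?_ (ht ▸ pln_core _) (le_add (le_symm ht'.le) h14) (by omega)
      rw [ht, ← pt_lab hg2, h8]
      rfl
    rw [h15, ← h8]
    exact hg2
  · -- free
    exfalso
    obtain ⟨γ, hγ0, hγ1, hγa, hγ⟩ := hG N e c s M lm hC q3 g g1 q'
      (by rw [← pt_lab hg, h3]; rfl) hg1 hlg1' hfr
    have h4 : z1 = γ (e - 1) := by
      obtain ⟨⟨q2, h5, h6, h7⟩, -⟩ := hγ (e - 1) (by omega) (by omega)
      have h8 : M.edist g (γ (e - 1)) ≤ ((e - 1 - 0 : ℕ) : ℕ∞) := by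
        rw [← hγ0]
        exact chain_le γ 0 (e - 1) (by omega) fun k _ hk => hγa k (by omega)
      refine sep_eq hMi hC ?_ hplz1 (le_add (le_symm hz1.le) h8) (by omega)
      rw [hlz1, ← pt_lab h7]
      exact (gl_gho_congr (by omega) h5 h6).symm
    have h5 : z' = γ e := by
      rcases (hγ (e - 1) (by omega) (by omega)).2 z' (h4 ▸ hz1z) with h | ⟨-, h⟩
      · exfalso
        have h8 : M.edist g (γ (e - 1 - 1)) ≤ ((e - 1 - 1 - 0 : ℕ) : ℕ∞) := by
          rw [← hγ0]
          exact chain_le γ 0 (e - 1 - 1) (by omega) fun k _ hk => hγa k (by omega)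
        rw [← h, hz'g] at h8
        have : e ≤ e - 1 - 1 - 0 := by exact_mod_cast h8
        omega
      · rw [h, hee]
    obtain ⟨⟨q2, h6, h7, h8⟩, -⟩ := hγ e (by omega) (by omega)
    rw [← h5] at h8
    obtain ⟨x4, hx4⟩ : ∃ x : TV N e c s, x.1 = .nat false (c.ow q2) (.gho q2 e) :=
      ⟨⟨_, pt_ok h8⟩, rfl⟩
    obtain ⟨t2, ht2⟩ := pt_bwd h8 x4 hx4 t'
    have h9 : (TG N e c s).edist x4 t2 = (e : ℕ∞) := (pe_dist ht2 (by omega)).2 ht'
    obtain ⟨z2, h10, h11⟩ := hTs.core N e c s hC.par hC.ax hC.ch x4 t2 false (c.ow q2) (.gho q2 e)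
      (c.lb (an c e q)) e hx4 (fun j h => by cases h) (fun j h => by cases h) h9 (by omega)
      (by omega) ((pe_lab ht2).trans ht)
    obtain ⟨i, j, -, -, hij, h12⟩ := (hTd.inn N e c s hC.par hC.ax hC.ch x4 t2
      (by rw [hx4, h10]; rfl) e).1 h9.le
    have h13 : z2 = c.ow q2 := by
      rcases lt_or_ge i e with h | h
      · exfalso
        rw [hx4, h10, tpar_gho false _ q2 e i h] at h12
        obtain ⟨z'', h14⟩ := tpar_core_false (N := N) (e := e) (c := c) (s := s) (c.ow q2) z2 j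
        rw [h14] at h12
        simp at h12
      · have hi : i = e := by omega
        have hj : j = 0 := by omega
        subst hj
        rw [hx4, h10, hi, tpar_gho' false _ q2 e (by omega)] at h12
        simp only [Function.iterate_zero, id] at h12
        injection h12 with _ _ h12
        injection h12 with h12
        exact h12.symm
    have h14 : an c e q = c.ow q := by
      refine k5n hC.ax (u := c.ow q) (N := N) (by rw [an_dist hF hC.par hC.ax q]; omega)
        (by rw [dist_self]; omega) ?_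
      rw [← h11, h13, h6, h3]
    have h15 := an_dist hF hC.par hC.ax q
    rw [h14, dist_self] at h15
    omega

end

end Pool.Agent.Helper9.LD
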