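import Pool.Agent.Helper9.LD.GhL

/-!
# LD project, part B2: neighbours of a copy of a centre
-/

set_option autoImplicit false

namespace Pool.Agent.Helper9.LD

open Pool.Agent.Helper2.LD

section

variable {V Q Λ B FB W : Type} {N e : ℕ}
  {c : Core V Q Λ B FB} {s : Ch V Q} {M : SimpleGraph W} {lm : W → Finset (Kd N Λ B FB)}

theorem fa_of_adj (hc : CoreAx N e c) {u w : V} (h : c.G.Adj u w) :
    ∃ q σ, c.ow q = u ∧ fa c σ q 1 = w := by
  obtain ⟨q, hq, h1 | h1⟩ := hc.k9 u w h
  · exact ⟨q, true, hq, h1⟩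
  · exact ⟨q, false, hq, h1⟩

/-- The neighbours `core w` of the centre in a piece `true`. -/
theorem root_core (hF : StFace) (hP : Par N e) (hc : CoreAx N e c) (hs : ChAx N c s)
    {x : TV N e c s} {u w : V} (hx : x.1 = .nat true u (.core u)) (h : c.G.Adj u w) :
    ∃ y : TV N e c s, y.1 = .nat true u (.core w) ∧ (TG N e c s).Adj x y := by
  have hN := par_le hP
  obtain ⟨q, σ, rfl, rfl⟩ := fa_of_adj hc h
  obtain ⟨y, hy⟩ : ∃ y : TV N e c s, y.1 = .nat true (c.ow q) (.core (fa c σ q 1)) :=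
    ⟨⟨_, ok_face hF hP hc (hx ▸ x.2) σ (by omega)⟩, rfl⟩
  have hpb := hF.par (K := Kd N Λ B FB) N e c s hP hc hs true q σ 1 le_rfl (by omega)
  refine ⟨y, hy, (adj_pb y x hy ?_ ?_ ?_).symm⟩
  · intro h1
    injection h1 with h1
    rw [h1] at h
    exact h.ne rfl
  · rw [hx, hpb]; rfl
  · rw [hpb]
    intro h1
    injection h1 with h1
    exact h.ne h1

/-- The neighbours `gho q 1` of the centre in a piece `true`. -/
theorem root_gho (hP : Par N e) {x : TV N e c s} {u : V}
    (hx : x.1 = .nat true u (.core u)) {q : Q} (h3 : c.ow q = u) :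
    ∃ y : TV N e c s, y.1 = .nat true u (.gho q 1) ∧ (TG N e c s).Adj x y := by
  have hN := par_le hP
  obtain ⟨y1, hy1⟩ : ∃ y : TV N e c s, y.1 = .nat true u (.gho q 1) :=
    ⟨⟨_, ok_gho (hx ▸ x.2) h3 le_rfl (by omega)⟩, rfl⟩
  have hpb : pb N e c s true u (.gho q 1 : GH V Q (Kd N Λ B FB)) = .core u := by
    simp only [pb, GH.dp]
    rw [if_pos le_rfl, h3]
  refine ⟨y1, hy1, (adj_pb y1 x hy1 (fun h => by cases h) (by rw [hx, hpb]) ?_).symm⟩
  rw [hpb]
  intro h
  cases h

variable [Fintype Λ] [Fintype B] [Fintype FB]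

/-- A neighbour of the centre with a core label. -/
theorem root_nb (hP : Par N e) (hs : ChAx N c s) {x y : TV N e c s} {u : V} {a : Λ}
    (hx : x.1 = .nat true u (.core u)) (hxy : (TG N e c s).Adj x y)
    (hl : tL N e c s y = {Kd.kap a}) :
    ∃ w, c.G.Adj u w ∧ y.1 = .nat true u (.core w) ∧ c.lb w = a := by
  have hN := par_le hP
  obtain ⟨hne, h | h⟩ := hxy
  · exfalso
    obtain ⟨y, hy⟩ := y
    rw [hx] at h
    cases y with
    | nat b' u' h' =>
      obtain ⟨-, -, h1, -⟩ := h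
      exact h1 rfl
    | cap b' u' h' => exact h
    | pth b' u' j => exact h
    | rt => exact h
  · obtain ⟨y, hy⟩ := y
    rw [hx] at h
    cases y with
    | nat b' u' h' =>
      obtain ⟨rfl, rfl, h1, h2⟩ := h
      have hl' : gl N e c h' = {Kd.kap a} := hl
      cases h' with
      | core z =>
        have h3 : c.lb z = a := core_inj (N := N) (B := B) (FB := FB) hl'
        refine ⟨z, ?_, rfl, h3⟩
        simp only [pb] at h2
        split_ifs at h2 with h4
        injection h2 with h2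
        have hz : u' ≠ z := fun h => h1 (by rw [h])
        have := (hs.pr u' z hz).1
        rw [← h2] at this
        exact this.symm
      | gho q j =>
        exfalso
        by_cases hj : j = e
        · subst hj
          simp only [pb, GH.dp] at h2
          rw [if_neg (by omega)] at h2
          cases h2
        · have : Kd.gam (c.bs (c.lb (c.ow q))) (c.fl q) ∈ ({Kd.kap a} : Finset (Kd N Λ B FB)) := by
            rw [← hl', mem_gho hj]; exact Or.inl rfl
          simp at this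
      | tru z j =>
        exfalso
        have : Kd.del (c.lb z) ∈ ({Kd.kap a} : Finset (Kd N Λ B FB)) := by
          rw [← hl', mem_tru]; exact Or.inl rfl
        simp at this
      | fan z l =>
        exfalso
        simp only [pb, GH.dp] at h2
        cases h2
    | cap b' u' h' =>
      exfalso
      obtain ⟨rfl, rfl, rfl⟩ := h
      obtain ⟨-, -, h1, -⟩ := hy
      simp [lev, GH.own, GH.ht, dep] at h1
      omega
    | pth b' u' j => exact h.elim
    | rt => exact h.elim

/-- The neighbour of a copy of a centre with the label of `core w`. -/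
theorem port_core (hF : StFace) (hMi : StMinj) (hPo : StPort) (hC : Cx N e c s M lm) {u w : V}
    {g : W} (hg : Pt N e c s M lm (.nat true u (.core u)) g) (h : c.G.Adj u w) :
    ∃ g', M.Adj g g' ∧ lm g' = {Kd.kap (c.lb w)} ∧
      (Pt N e c s M lm (.nat true u (.core w)) g' ∨
        ∃ u', Pt N e c s M lm (.nat true u' (.core u')) g') := by
  obtain ⟨x, hx⟩ : ∃ x : TV N e c s, x.1 = .nat true u (.core u) := ⟨⟨_, pt_ok hg⟩, rfl⟩
  obtain ⟨y, hy, hxy⟩ := root_core hF hC.par hC.ax hC.ch hx h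
  obtain ⟨g1, ⟨hg1, hlg1⟩, -⟩ := (hMi.nbr N e c s M lm hC x g (hx ▸ hg)).2.1 y hxy
  have hlg1' : lm g1 = {Kd.kap (c.lb w)} := by
    rw [hlg1]; change tl N e c s y.1 = _; rw [hy]; rfl
  refine ⟨g1, hg1, hlg1', ?_⟩
  rcases hPo.core N e c s M lm hC u g hg w h g1 hg1 hlg1' with h | ⟨u', -, h⟩
  · exact Or.inl h
  · exact Or.inr ⟨u', h⟩

/-- The neighbour of a copy of a centre with the label of `gho q 1`. -/
theorem port_gho (hMi : StMinj) (hPo : StPort) (hC : Cx N e c s M lm) {u : V}
    {g : W} (hg : Pt N e c s M lm (.nat true u (.core u)) g) {q : Q} (h : c.ow q = u) :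
    ∃ g', M.Adj g g' ∧ lm g' = gl N e c (.gho q 1) ∧
      (Pt N e c s M lm (.nat true u (.gho q 1)) g' ∨
        ∃ q', Pt N e c s M lm (.nat false (c.ow q') (.gho q' 1)) g') := by
  obtain ⟨x, hx⟩ : ∃ x : TV N e c s, x.1 = .nat true u (.core u) := ⟨⟨_, pt_ok hg⟩, rfl⟩
  obtain ⟨y, hy, hxy⟩ := root_gho hC.par hx h
  obtain ⟨g1, ⟨hg1, hlg1⟩, -⟩ := (hMi.nbr N e c s M lm hC x g (hx ▸ hg)).2.1 y hxy
  have hlg1' : lm g1 = gl N e c (.gho q 1) := by
    rw [hlg1]; change tl N e c s y.1 = _; rw [hy]; rfl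
  refine ⟨g1, hg1, hlg1', ?_⟩
  rcases hPo.gho N e c s M lm hC u g hg q h g1 hg1 hlg1' with h | ⟨q', -, -, h⟩
  · exact Or.inl h
  · exact Or.inr ⟨q', h⟩

/-- A port is not open and plugged. -/
theorem not_both (hMi : StMinj) (hRo : StRoot) (hC : Cx N e c s M lm) {u w : V}
    {g g' : W} (h : c.G.Adj u w) (hO : Opn N e c s M lm w g) (hg' : M.Adj g g')
    (h1 : Pt N e c s M lm (.nat true u (.core w)) g') : False := by
  obtain ⟨g2, h2, h3, u', h4⟩ := hO
  have h5 : g' = g2 := by
    refine two_eq hMi hC hg' h2 ?_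
    rw [← pt_lab h1, h3]
    rfl
  subst h5
  have h6 := hRo N e c s M lm hC u' g' h4 _ h1
  injection h6 with _ h6 h7
  injection h7 with h7
  rw [h6, h7] at h
  exact h.ne rfl

end

end Pool.Agent.Helper9.LD
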