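import Pool.Agent.Helper2.LD.St5

/-!
# LD project, part B2: toolkit (pairs, partners, arguments (*), (**), (***))
-/

set_option autoImplicit false

namespace Pool.Agent.Helper9.LD

open Pool.Agent.Helper2.LD

/-! ### Generalities -/

section gen

variable {X Y K : Type}

/-- Distance along a chain. -/
theorem chain_le {G : SimpleGraph X} (γ : ℕ → X) (i j : ℕ) (hij : i ≤ j)
    (h : ∀ k, i ≤ k → k < j → G.Adj (γ k) (γ (k + 1))) :
    G.edist (γ i) (γ j) ≤ ((j - i : ℕ) : ℕ∞) := by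
  induction j, hij using Nat.le_induction with
  | base => simp
  | succ j hj ih =>
    have h1 : G.edist (γ j) (γ (j + 1)) = 1 := SimpleGraph.edist_eq_one_iff_adj.2 (h j hj (by omega))
    calc G.edist (γ i) (γ (j + 1)) ≤ G.edist (γ i) (γ j) + G.edist (γ j) (γ (j + 1)) :=
          SimpleGraph.edist_triangle
      _ ≤ ((j - i : ℕ) : ℕ∞) + 1 := by
          rw [h1]; gcongr; exact ih fun k hk hk' => h k hk (by omega)
      _ = ((j + 1 - i : ℕ) : ℕ∞) := by
          rw [show j + 1 - i = (j - i) + 1 by omega]; push_cast; rfl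

theorem le_add {G : SimpleGraph X} {x y z : X} {a b : ℕ} (h1 : G.edist x y ≤ (a : ℕ∞))
    (h2 : G.edist y z ≤ (b : ℕ∞)) : G.edist x z ≤ ((a + b : ℕ) : ℕ∞) := by
  calc G.edist x z ≤ G.edist x y + G.edist y z := SimpleGraph.edist_triangle
    _ ≤ (a : ℕ∞) + (b : ℕ∞) := add_le_add h1 h2
    _ = ((a + b : ℕ) : ℕ∞) := by push_cast; rfl

theorem le_symm {G : SimpleGraph X} {x y : X} {a : ℕ} (h1 : G.edist x y ≤ (a : ℕ∞)) :
    G.edist y x ≤ (a : ℕ∞) := by rwa [SimpleGraph.edist_comm]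

theorem adj_le {G : SimpleGraph X} {x y : X} (h : G.Adj x y) : G.edist x y ≤ ((1 : ℕ) : ℕ∞) := by
  rw [SimpleGraph.edist_eq_one_iff_adj.2 h]; rfl

theorem exists_eq_of_le {a : ℕ∞} {n : ℕ} (h : a ≤ (n : ℕ∞)) : ∃ d : ℕ, d ≤ n ∧ a = (d : ℕ∞) := by
  lift a to ℕ using ne_top_of_le_ne_top (ENat.natCast_ne_top n) h
  exact ⟨a, by exact_mod_cast h, rfl⟩

theorem not_le_of_lt {a : ℕ∞} {m n : ℕ} (h : ((m : ℕ) : ℕ∞) ≤ a) (h' : a ≤ ((n : ℕ) : ℕ∞))
    (hmn : n < m) : False := by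
  have h1 : m ≤ n := by exact_mod_cast h.trans h'
  omega

end gen

/-! ### Pairs -/

section pair

variable {K X X' : Type} {N e : ℕ} {S : SimpleGraph X} {lab : X → Finset K}
  {S' : SimpleGraph X'} {lab' : X' → Finset K} {s t : X} {s' t' : X'}

theorem pe_lab (h : PairEq N e S lab S' lab' s t s' t') : lab t = lab' t' := h.1

theorem pe_eq (h : PairEq N e S lab S' lab' s t s' t') : s = t ↔ s' = t' := h.2.1

theorem pe_dist (h : PairEq N e S lab S' lab' s t s' t') {d : ℕ} (hd : d ≤ 2 * N) :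
    S.edist s t = (d : ℕ∞) ↔ S'.edist s' t' = (d : ℕ∞) := h.2.2.1 d hd

theorem pe_le (h : PairEq N e S lab S' lab' s t s' t') {d : ℕ} (hd : d ≤ 2 * N) :
    S.edist s t ≤ (d : ℕ∞) ↔ S'.edist s' t' ≤ (d : ℕ∞) := by
  constructor
  · intro h1
    obtain ⟨a, ha, h2⟩ := exists_eq_of_le h1
    rw [(pe_dist h (ha.trans hd)).1 h2]
    exact_mod_cast ha
  · intro h1
    obtain ⟨a, ha, h2⟩ := exists_eq_of_le h1
    rw [(pe_dist h (ha.trans hd)).2 h2]
    exact_mod_cast ha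

theorem pe_adj (hN : 1 ≤ N) (h : PairEq N e S lab S' lab' s t s' t') :
    S.Adj s t ↔ S'.Adj s' t' := by
  rw [← SimpleGraph.edist_eq_one_iff_adj, ← SimpleGraph.edist_eq_one_iff_adj]
  exact pe_dist h (d := 1) (by omega)

theorem pe_win (h : PairEq N e S lab S' lab' s t s' t') (p : ℕ) (κ : K) :
    Win e S lab s t p κ ↔ Win e S' lab' s' t' p κ := h.2.2.2 p κ

/-- Transfer of a point of a geodesic, from `S` to `S'`. -/
theorem pe_mid (h : PairEq N e S lab S' lab' s t s' t') {p q : ℕ} (hp : p ≤ e) (hq : q ≤ e)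
    (hpq : p + q ≤ 2 * N) (hst : S.edist s t = ((p + q : ℕ) : ℕ∞)) {z : X}
    (h1 : S.edist s z = (p : ℕ∞)) (h2 : S.edist z t = (q : ℕ∞)) {κ : K} (hκ : κ ∈ lab z) :
    ∃ z', S'.edist s' z' = (p : ℕ∞) ∧ S'.edist z' t' = (q : ℕ∞) ∧ κ ∈ lab' z' := by
  obtain ⟨q', -, hq', h3, z', h4, h5, h6⟩ := (pe_win h p κ).1 ⟨q, hp, hq, hst, z, h1, h2, hκ⟩
  rw [(pe_dist h hpq).1 hst] at h3
  have : p + q = p + q' := by exact_mod_cast h3
  have hqq : q' = q := by omega
  subst hqq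
  exact ⟨z', h4, h5, h6⟩

/-- Transfer of a point of a geodesic, from `S'` to `S`. -/
theorem pe_mid' (h : PairEq N e S lab S' lab' s t s' t') {p q : ℕ} (hp : p ≤ e) (hq : q ≤ e)
    (hpq : p + q ≤ 2 * N) (hst : S'.edist s' t' = ((p + q : ℕ) : ℕ∞)) {z : X'}
    (h1 : S'.edist s' z = (p : ℕ∞)) (h2 : S'.edist z t' = (q : ℕ∞)) {κ : K} (hκ : κ ∈ lab' z) :
    ∃ z', S.edist s z' = (p : ℕ∞) ∧ S.edist z' t = (q : ℕ∞) ∧ κ ∈ lab z' := by
  obtain ⟨q', -, hq', h3, z', h4, h5, h6⟩ := (pe_win h p κ).2 ⟨q, hp, hq, hst, z, h1, h2, hκ⟩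
  rw [(pe_dist h hpq).2 hst] at h3
  have : p + q = p + q' := by exact_mod_cast h3
  have hqq : q' = q := by omega
  subst hqq
  exact ⟨z', h4, h5, h6⟩

end pair

/-! ### Partners -/

section partner

variable {V Q Λ B FB W : Type} [Fintype Λ] [Fintype B] [Fintype FB] {N e : ℕ}
  {c : Core V Q Λ B FB} {s : Ch V Q} {M : SimpleGraph W} {lm : W → Finset (Kd N Λ B FB)}
  {t t' : TH V Q (Kd N Λ B FB)} {g g' : W}

omit [Fintype Λ] [Fintype B] [Fintype FB] in
theorem par_le (h : Par N e) : e + 4 = N ∧ 20 ≤ e ∧ 1 ≤ N ∧ 2 * e + 8 = 2 * N := by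
  obtain ⟨h1, h2⟩ := h
  omega

theorem pt_ok (h : Pt N e c s M lm t g) : okT N e c s t := h.1

theorem pt_lab (h : Pt N e c s M lm t g) : tl N e c s t = lm g := h.2.1

/-- `(x, y) ~ (g, ?)`. -/
theorem pt_fwd (h : Pt N e c s M lm t g) (x y : TV N e c s) (hx : x.1 = t) :
    ∃ g', PairEq N e (TG N e c s) (tL N e c s) M lm x y g g' := by
  obtain ⟨x, hx'⟩ := x
  subst hx
  exact h.2.2.1 y

/-- `(x, ?) ~ (g, g')`. -/
theorem pt_bwd (h : Pt N e c s M lm t g) (x : TV N e c s) (hx : x.1 = t) (g' : W) :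
    ∃ y, PairEq N e (TG N e c s) (tL N e c s) M lm x y g g' := by
  obtain ⟨x, hx'⟩ := x
  subst hx
  exact h.2.2.2 g'

omit [Fintype Λ] [Fintype B] [Fintype FB] in
theorem rg_mono {a b : ℕ} (hab : a ≤ b) (h : Rg N e c s a t) : Rg N e c s b t := by
  obtain ⟨x, v, h1, h2, h3⟩ := h
  exact ⟨x, v, h1, h2, h3.trans (by exact_mod_cast hab)⟩

omit [Fintype Λ] [Fintype B] [Fintype FB] in
theorem rg_ok {a : ℕ} (h : Rg N e c s a t) : okT N e c s t := by
  obtain ⟨x, v, h1, h2, h3⟩ := h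
  exact h1 ▸ x.2

omit [Fintype Λ] [Fintype B] [Fintype FB] in
/-- The neighbour of a `Rg r` hub is `Rg (r + 1)`. -/
theorem rg_adj {a : ℕ} (x y : TV N e c s) (hxy : (TG N e c s).Adj x y)
    (h : Rg N e c s a x.1) : Rg N e c s (a + 1) y.1 := by
  obtain ⟨x', v, h1, h2, h3⟩ := h
  have hx : x' = x := Subtype.ext h1
  subst hx
  exact ⟨y, v, rfl, h2, le_add h3 (adj_le hxy)⟩

/-- Argument (*). -/
theorem star (hRg : StRg) (hC : Cx N e c s M lm) (h1 : Pt N e c s M lm t g)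
    (ht : ¬ Rg N e c s (2 * N) t) (hadj : M.Adj g g') (h2 : Pt N e c s M lm t' g')
    (ht' : Rg N e c s (2 * N - 1) t') : False := by
  obtain ⟨x, y, hx, hxy, hy⟩ := (hRg.nbr N e c s M lm hC t' g' ht' h2).2 g hadj.symm
  have hN := par_le hC.par
  have h3 : Rg N e c s (2 * N) y.1 := by
    have := rg_adj x y hxy (hx ▸ ht')
    rwa [show 2 * N - 1 + 1 = 2 * N by omega] at this
  exact ht (hRg.uniq' N e c s M lm hC y.1 t g h3 hy h1 ▸ h3)

/-- Argument (**). -/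
theorem sstar (hRg : StRg) (hC : Cx N e c s M lm) (x y : TV N e c s)
    (hxy : (TG N e c s).Adj x y) (hx : Rg N e c s (2 * N) x.1) (hy : Rg N e c s (2 * N - 1) y.1)
    (h1 : Pt N e c s M lm x.1 g) (h2 : Pt N e c s M lm y.1 g') : M.Adj g g' := by
  obtain ⟨g'', h3, h4⟩ := (hRg.nbr N e c s M lm hC y.1 g' hy h2).1 y x rfl hxy.symm
  have : g'' = g := (hRg.uniq N e c s M lm hC x.1 hx).unique h3 h1
  subst this
  exact h4.symm

/-- Argument (***). -/
theorem ssstar (hRg : StRg) (hMi : StMinj) (hC : Cx N e c s M lm) (x y : TV N e c s)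
    (hxy : (TG N e c s).Adj x y) (hx : Rg N e c s (2 * N) x.1) (hy : Rg N e c s (2 * N - 1) y.1)
    (h1 : Pt N e c s M lm x.1 g) (h2 : M.Adj g g') (h3 : tL N e c s y = lm g') :
    Pt N e c s M lm y.1 g' := by
  have hN := par_le hC.par
  obtain ⟨g'', h4, -⟩ := hRg.uniq N e c s M lm hC y.1 (rg_mono (by omega) hy)
  have h5 : M.Adj g g'' := sstar hRg hC x y hxy hx hy h1 h4
  have h6 : g'' = g' := by
    by_contra hne
    refine hMi.two N e c s M lm hC g'' g' hne (le_add (adj_le h5.symm) (adj_le h2)) ?_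
    rw [← pt_lab h4, ← h3]; rfl
  exact h6 ▸ h4

/-- Equal labels at distance at most two. -/
theorem two_eq (hMi : StMinj) (hC : Cx N e c s M lm) {g0 : W} (h1 : M.Adj g0 g) (h2 : M.Adj g0 g')
    (h : lm g = lm g') : g = g' := by
  by_contra hne
  exact hMi.two N e c s M lm hC g g' hne (le_add (adj_le h1.symm) (adj_le h2)) h

/-- Equal plain labels at distance less than `2 * N`. -/
theorem sep_eq (hMi : StMinj) (hC : Cx N e c s M lm) (h : lm g = lm g') (hp : PlnL N (lm g))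
    {n : ℕ} (hd : M.edist g g' ≤ (n : ℕ∞)) (hn : n < 2 * N) : g = g' := by
  by_contra hne
  exact not_le_of_lt (hMi.sep N e c s M lm hC g g' hne h hp) hd hn

/-- Chains of partners. -/
theorem chain (hRg : StRg) (hC : Cx N e c s M lm) (n : ℕ) (X : ℕ → TV N e c s)
    (hadj : ∀ j < n, (TG N e c s).Adj (X j) (X (j + 1))) (h0 : Rg N e c s (2 * N) (X 0).1)
    (hX : ∀ j, 1 ≤ j → j ≤ n → Rg N e c s (2 * N - 1) (X j).1) (h1 : Pt N e c s M lm (X 0).1 g) :
    ∃ γ : ℕ → W, γ 0 = g ∧ (∀ j ≤ n, Pt N e c s M lm (X j).1 (γ j)) ∧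
      ∀ j < n, M.Adj (γ j) (γ (j + 1)) := by
  classical
  have hN := par_le hC.par
  have hrg : ∀ j ≤ n, Rg N e c s (2 * N) (X j).1 := fun j hj => by
    rcases Nat.eq_zero_or_pos j with rfl | hj'
    · exact h0
    · exact rg_mono (by omega) (hX j hj' hj)
  have hex : ∀ j, ∃ g, j ≤ n → Pt N e c s M lm (X j).1 g := fun j => by
    by_cases hj : j ≤ n
    · obtain ⟨g, hg, -⟩ := hRg.uniq N e c s M lm hC _ (hrg j hj)
      exact ⟨g, fun _ => hg⟩
    · exact ⟨g, fun h => absurd h hj⟩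
  choose γ hγ using hex
  refine ⟨γ, (hRg.uniq N e c s M lm hC _ h0).unique (hγ 0 (by omega)) h1, hγ, fun j hj => ?_⟩
  exact sstar hRg hC (X j) (X (j + 1)) (hadj j hj) (hrg j hj.le) (hX (j + 1) (by omega) (by omega))
    (hγ j hj.le) (hγ (j + 1) (by omega))

end partner

/-! ### Core vertices of a piece -/

section core

variable {V Q Λ B FB : Type} {N e : ℕ} {c : Core V Q Λ B FB} {s : Ch V Q}

theorem c_edist (hc : CoreAx N e c) (x y : V) : c.G.edist x y = ((c.G.dist x y : ℕ) : ℕ∞) :=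
  (SimpleGraph.Reachable.coe_dist_eq_edist (hc.conn.preconnected x y)).symm

/-- Core vertices near `u` are determined by the base of the label. -/
theorem k5n (hc : CoreAx N e c) {u z z' : V} (h1 : c.G.dist u z ≤ 2 * N + 1)
    (h2 : c.G.dist u z' ≤ 2 * N + 1) (h : c.bs (c.lb z) = c.bs (c.lb z')) : z = z' := by
  refine hc.k5 z z' ?_ h
  rw [c_edist hc]
  have h3 : c.G.dist z z' ≤ c.G.dist z u + c.G.dist u z' := hc.conn.dist_triangle
  rw [SimpleGraph.dist_comm] at h1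
  exact_mod_cast (by omega : c.G.dist z z' ≤ 4 * N + 2)

theorem ok_lev {b : Bool} {u : V} {h : GH V Q (Kd N Λ B FB)} (hN : 1 ≤ N)
    (hk : okT N e c s (.nat b u h)) : lev N c u h ≤ 2 * N := by
  obtain ⟨-, hg, h1 | ⟨-, q, h1, h2⟩⟩ := hk
  · unfold dep at h1; split_ifs at h1 <;> omega
  · subst h2; subst h1
    simp [lev, GH.own, GH.ht]

theorem ok_core {b : Bool} {u z : V} (hN : 1 ≤ N)
    (hk : okT N e c s (.nat b u (.core z))) : c.G.dist u z ≤ 2 * N := by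
  simpa [lev, GH.own, GH.ht] using ok_lev hN hk

theorem ok_rp {b : Bool} {u : V} {h : GH V Q (Kd N Λ B FB)}
    (hk : okT N e c s (.nat b u h)) : s.rp u = u := hk.1

theorem core_inj {l l' : Λ} (h : ({Kd.kap l} : Finset (Kd N Λ B FB)) = {Kd.kap l'}) : l = l' := by
  have := Finset.singleton_injective h
  injection this

theorem pln_core (l : Λ) : PlnL N ({Kd.kap l} : Finset (Kd N Λ B FB)) := Or.inl ⟨l, rfl⟩

theorem mem_core {z : V} {κ : Kd N Λ B FB} :
    κ ∈ gl N e c (.core z) ↔ κ = Kd.kap (c.lb z) := by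
  simp [gl]

theorem mem_gho {q : Q} {j : ℕ} (hj : j ≠ e) {κ : Kd N Λ B FB} :
    κ ∈ gl N e c (.gho q j) ↔ κ = Kd.gam (c.bs (c.lb (c.ow q))) (c.fl q) ∨ κ = piK N j := by
  simp [gl, hj]

theorem mem_gho_e {q : Q} {κ : Kd N Λ B FB} :
    κ ∈ gl N e c (.gho q e) ↔ κ = Kd.kap (c.lb (c.ow ((c.nx^[e]) q))) ∨
      κ = Kd.kap (c.lb (c.ow ((c.nx^[3 * e]) q))) := by
  simp [gl]

theorem mem_tru {x : V} {j : ℕ} {κ : Kd N Λ B FB} :
    κ ∈ gl N e c (.tru x j) ↔ κ = Kd.del (c.lb x) ∨ κ = piK N j := by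
  simp [gl]

theorem pln_gho {q : Q} {j : ℕ} (hj : j ≠ e) : PlnL N (gl N e c (.gho q j)) :=
  Or.inr (Or.inl ⟨c.bs (c.lb (c.ow q)), c.fl q, j, fun _ => mem_gho hj⟩)

/-- The label of a ghost depends on the base and the face label only. -/
theorem gl_gho_congr {q q' : Q} {j : ℕ} (hj : j ≠ e)
    (h : c.bs (c.lb (c.ow q)) = c.bs (c.lb (c.ow q'))) (h' : c.fl q = c.fl q') :
    gl N e c (.gho q j) = gl N e c (.gho q' j) := by
  ext κ
  rw [mem_gho hj, mem_gho hj, h, h']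

/-- Adjacency of a natural hub with its parent. -/
theorem adj_pb (x y : TV N e c s) {b : Bool} {u : V} {h : GH V Q (Kd N Λ B FB)}
    (hx : x.1 = .nat b u h) (hh : h ≠ .core u) (hy : y.1 = .nat b u (pb N e c s b u h))
    (hne : pb N e c s b u h ≠ h) : (TG N e c s).Adj x y := by
  refine ⟨fun h0 => hne ?_, Or.inl ?_⟩
  · have : x.1 = y.1 := by rw [h0]
    rw [hx, hy] at this
    injection this with _ _ h3
    exact h3.symm
  · rw [hx, hy]
    exact ⟨rfl, rfl, hh, rfl⟩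

theorem tpar_gho (b : Bool) (u : V) (q : Q) (j i : ℕ) (hi : i < j) :
    (tpar (K := Kd N Λ B FB) N e c s)^[i] (.nat b u (.gho q j)) = .nat b u (.gho q (j - i)) := by
  induction i with
  | zero => rfl
  | succ i ih =>
    rw [Function.iterate_succ_apply', ih (by omega)]
    simp only [tpar, pb, GH.dp]
    rw [if_neg (by omega)]
    congr 2

theorem tpar_gho' (b : Bool) (u : V) (q : Q) (j : ℕ) (hj : 1 ≤ j) :
    (tpar (K := Kd N Λ B FB) N e c s)^[j] (.nat b u (.gho q j)) = .nat b u (.core (c.ow q)) := by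
  obtain ⟨i, rfl⟩ : ∃ i, j = i + 1 := ⟨j - 1, by omega⟩
  rw [Function.iterate_succ_apply', tpar_gho b u q (i + 1) i (by omega)]
  simp [tpar, pb, GH.dp]

theorem tpar_core_false (u z : V) (j : ℕ) :
    ∃ z', (tpar (K := Kd N Λ B FB) N e c s)^[j] (.nat false u (.core z)) = .nat false u (.core z') := by
  induction j with
  | zero => exact ⟨z, rfl⟩
  | succ j ih =>
    obtain ⟨z', h⟩ := ih
    rw [Function.iterate_succ_apply', h]
    refine ⟨s.pr u z', ?_⟩
    simp [tpar, pb]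

end core

end Pool.Agent.Helper9.LD
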