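import Pool.Agent.Helper48.LD.NBase
import Pool.Agent.Helper9.LD.Tool

/-!
# LD project, part B1: near hubs of a ghost
-/

set_option autoImplicit false

namespace Pool.Agent.Helper9.LD

open Pool.Agent.Helper2.LD
open Pool.Agent.Helper48.LD (win_iff pairEq_mk rp_idem lb_eq NA NA_of_lt pb_eq_false pbf_core pbf_ok
  tpar_iter okT_iter pb_iter Mt_iter NA_Mt)

section gen

theorem edist_eq_of {X : Type} {G : SimpleGraph X} {x y : X} {D : ℕ}
    (h : ∀ d : ℕ, G.edist x y ≤ (d : ℕ∞) ↔ D ≤ d) : G.edist x y = (D : ℕ∞) := by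
  obtain ⟨a, ha, h1⟩ := exists_eq_of_le ((h D).2 le_rfl)
  have h2 := (h a).1 h1.le
  rw [h1]
  exact_mod_cast le_antisymm ha h2

end gen

section

variable {V Q Λ B FB : Type} {N e : ℕ} {c : Core V Q Λ B FB} {s : Ch V Q}

/-- A hub which is no own ghost `q` has no ancestor of this kind. -/
theorem anc (hTok : StTok) (hP : Par N e) (hc : CoreAx N e c) (hs : ChAx N c s) {u : V} {q : Q}
    (hq : c.ow q = u) : ∀ (i : ℕ) (z : TH V Q (Kd N Λ B FB)), okT N e c s z → i ≤ tlev N c z →
    (∀ m, z ≠ .nat false u (.gho q m)) →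
    ∀ m, (tpar N e c s)^[i] z ≠ .nat false u (.gho q m) := by
  intro i
  induction i with
  | zero => intro z _ _ h m; exact h m
  | succ i ih =>
    intro z hz hi h m
    obtain ⟨h1, h2, -⟩ := hTok.ok N e c s hP hc hs z hz (by omega)
    rw [Function.iterate_succ_apply]
    refine ih _ h1 (by omega) (fun m => ?_) m
    cases z with
    | nat b u' h' =>
      intro hh
      simp only [tpar] at hh
      injection hh with e1 e2 e3
      subst e1; subst e2
      cases h' with
      | core z => rw [pbf_core] at e3; cases e3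
      | gho q' j =>
        simp only [pb, GH.dp] at e3
        split_ifs at e3
        injection e3 with e3 _
        exact h j (by rw [e3])
      | tru z j =>
        simp only [pb, GH.dp] at e3
        split_ifs at e3
      | fan z l =>
        simp only [pb, GH.dp] at e3
        cases e3
    | cap b u' h' =>
      intro hh
      simp only [tpar] at hh
      injection hh with e1 e2 e3
      subst e1; subst e2
      exact hz.2.2.2.2 rfl q m hq e3
    | pth b u' j =>
      intro hh
      simp only [tpar] at hh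
      split_ifs at hh
    | rt =>
      intro hh
      simp only [tpar] at hh
      cases hh

variable {u : V} {q : Q}

/-- Distances between own ghosts in a piece `false`. -/
theorem T_own (hTd : StTdist) (hP : Par N e) (hc : CoreAx N e c) (hs : ChAx N c s)
    (hq : c.ow q = u) {y z : TV N e c s} {i j : ℕ} (hi : 1 ≤ i) (hj : 1 ≤ j)
    (hy : y.1 = .nat false u (.gho q j)) (hz : z.1 = .nat false u (.gho q i)) :
    (TG N e c s).edist y z = ((j - i + (i - j) : ℕ) : ℕ∞) := by
  refine edist_eq_of fun d => ?_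
  rw [hTd.inn N e c s hP hc hs y z (by rw [hy, hz]; rfl) d, hy, hz]
  have l1 : tlev N c (.nat false u (.gho q j) : TH V Q (Kd N Λ B FB)) = j := by
    simp [tlev, lev, GH.own, GH.ht, hq]
  have l2 : tlev N c (.nat false u (.gho q i) : TH V Q (Kd N Λ B FB)) = i := by
    simp [tlev, lev, GH.own, GH.ht, hq]
  rw [l1, l2]
  constructor
  · rintro ⟨a, b, ha, hb, hab, h⟩
    rcases Nat.lt_or_eq_of_le ha with h1 | h1 <;> rcases Nat.lt_or_eq_of_le hb with h2 | h2
    · rw [tpar_gho false u q j a h1, tpar_gho false u q i b h2] at h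
      injection h with _ _ h
      injection h with _ h
      omega
    · rw [tpar_gho false u q j a h1, h2, tpar_gho' false u q i hi] at h
      injection h with _ _ h
      cases h
    · rw [tpar_gho false u q i b h2, h1, tpar_gho' false u q j hj] at h
      injection h with _ _ h
      cases h
    · omega
  · intro h
    rcases le_total j i with h1 | h1
    · refine ⟨0, i - j, by omega, by omega, by omega, ?_⟩
      rw [tpar_gho false u q i (i - j) (by omega), show i - (i - j) = j by omega]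
      rfl
    · refine ⟨j - i, 0, by omega, by omega, by omega, ?_⟩
      rw [tpar_gho false u q j (j - i) (by omega), show j - (j - i) = i by omega]
      rfl

/-- Distances from an own ghost to the other hubs of a piece `false`. -/
theorem T_oth (hTok : StTok) (hTd : StTdist) (hP : Par N e) (hc : CoreAx N e c) (hs : ChAx N c s)
    (hq : c.ow q = u) {y z : TV N e c s} {j : ℕ} (hj : 1 ≤ j)
    (hy : y.1 = .nat false u (.gho q j)) (hz : pc z.1 = some (false, u))
    (hz' : ∀ m, z.1 ≠ .nat false u (.gho q m)) :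
    (TG N e c s).edist y z = ((j + tlev N c z.1 : ℕ) : ℕ∞) := by
  refine edist_eq_of fun d => ?_
  rw [hTd.inn N e c s hP hc hs y z (by rw [hy, hz]; rfl) d, hy]
  have l1 : tlev N c (.nat false u (.gho q j) : TH V Q (Kd N Λ B FB)) = j := by
    simp [tlev, lev, GH.own, GH.ht, hq]
  rw [l1]
  constructor
  · rintro ⟨a, b, ha, hb, hab, h⟩
    rcases Nat.lt_or_eq_of_le ha with h1 | h1
    · rw [tpar_gho false u q j a h1] at h
      exact (anc hTok hP hc hs hq b z.1 z.2 hb hz' _ h.symm).elim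
    · rw [h1, tpar_gho' false u q j hj, hq] at h
      have h2 := (okT_iter hTok hP hc hs b z.1 z.2 hb).2.1
      rw [← h] at h2
      have h3 : tlev N c (.nat false u (.core u) : TH V Q (Kd N Λ B FB)) = 0 := by
        simp [tlev, lev, GH.own, GH.ht]
      omega
  · intro h
    refine ⟨j, tlev N c z.1, le_rfl, le_rfl, h, ?_⟩
    rw [tpar_gho' false u q j hj, hq]
    obtain ⟨h1, h2, h3⟩ := okT_iter hTok hP hc hs (tlev N c z.1) z.1 z.2 le_rfl
    rcases hTok.zero N e c s hP hc hs _ h1 (by omega) with h4 | ⟨b, u', -, h4⟩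
    · rw [h4, hz] at h3
      simp [pc] at h3
    · rw [h4, hz] at h3
      simp only [pc, Option.some.injEq, Prod.mk.injEq] at h3
      obtain ⟨rfl, rfl⟩ := h3
      exact h4.symm

/-- The hubs within `2 * N` of an own ghost of a piece `false` are natural hubs of the piece. -/
theorem T_near (hTok : StTok) (hTd : StTdist) (hP : Par N e) (hc : CoreAx N e c) (hs : ChAx N c s)
    (hq : c.ow q = u) {y z : TV N e c s} {j : ℕ} (hj : 1 ≤ j)
    (hy : y.1 = .nat false u (.gho q j))
    (hd : (TG N e c s).edist y z ≤ ((2 * N : ℕ) : ℕ∞)) :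
    ∃ h, z.1 = .nat false u h := by
  have hN := par_le hP
  have hu : s.rp u = u := (hy ▸ y.2 : okT N e c s (.nat false u (.gho q j))).1
  have hpc : pc z.1 = some (false, u) := by
    rcases hTd.near N e c s hP hc hs y z false u (by rw [hy]; rfl) hd with h | ⟨i, h⟩
    · exact h
    · exfalso
      have hcc := hTok.okc N e c s hP hc hs false u hu
      have hp1 : okT N e c s (.pth false u 1) := ⟨hu, le_refl _, by omega⟩
      have h1 := hTd.out N e c s hP hc hs y z ⟨_, hcc⟩ ⟨_, hp1⟩ false u (by rw [hy]; rfl)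
        (by rw [h]; simp [pc]) rfl rfl
      have h2 := T_oth hTok hTd hP hc hs hq hj hy (z := ⟨_, hcc⟩) rfl (fun m h => by cases h)
      rw [h1, h2] at hd
      have h3 : tlev N c (.cap false u (cc N s false u) : TH V Q (Kd N Λ B FB)) = 2 * N := by
        show lev N c u (.tru u (2 * N - 1)) + 1 = _
        simp only [lev, GH.own, GH.ht, SimpleGraph.dist_self]
        omega
      simp only [h3] at hd
      have h4 : ((j + 2 * N : ℕ) : ℕ∞) ≤ ((2 * N : ℕ) : ℕ∞) :=
        le_trans (le_trans le_self_add le_self_add) hd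
      have h5 : j + 2 * N ≤ 2 * N := by exact_mod_cast h4
      omega
  obtain ⟨z, hz⟩ := z
  cases z with
  | nat b u' h' =>
    simp only [pc, Option.some.injEq, Prod.mk.injEq] at hpc
    obtain ⟨rfl, rfl⟩ := hpc
    exact ⟨h', rfl⟩
  | cap b u' h' =>
    exfalso
    have hpc' := hpc
    simp only [pc, Option.some.injEq, Prod.mk.injEq] at hpc'
    obtain ⟨rfl, rfl⟩ := hpc'
    have h2 := T_oth hTok hTd hP hc hs hq hj hy (z := ⟨_, hz⟩) rfl (fun m h => by cases h)
    rw [h2] at hd
    have h1 : lev N c u' h' = 2 * N - 1 := by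
      have := hz.2.2.1
      simpa [dep] using this
    have h3 : j + (lev N c u' h' + 1) ≤ 2 * N := by exact_mod_cast hd
    omega
  | pth b u' i => simp [pc] at hpc
  | rt => simp [pc] at hpc

/-- The own ghosts have the same labels. -/
theorem lab_own (hMt : StMt) (hP : Par N e) (hc : CoreAx N e c) {x : V}
    (hT : TS N c x = TS N c u) {q' : Q} (hq : c.ow q = x) (hq' : c.ow q' = u)
    (hfl : c.fl q' = c.fl q) (i : ℕ) :
    gl N e c (.gho q i) = gl N e c (.gho q' i) := by
  have hN := par_le hP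
  have hlb : c.lb x = c.lb u := lb_eq hP hc hT
  by_cases hi : i = e
  · refine hMt.lab N e c hP hc x u hT _ _ ?_ ?_
    · refine ⟨rfl, hfl.symm, by rw [hq, hq', hlb], ?_, ?_⟩
      · rw [hq, hq']; simp
      · rw [hq]; simp; omega
    · simp only [lev, GH.own, GH.ht, hq, SimpleGraph.dist_self]
      omega
  · exact gl_gho_congr hi (by rw [hq, hq', hlb]) hfl.symm

/-- Matching and own ghosts. -/
theorem own_left {K : Type} (hc : CoreAx N e c) {x : V} {q' : Q} (hq : c.ow q = x)
    (hq' : c.ow q' = u) (hfl : c.fl q' = c.fl q) {h : GH V Q K} {m : ℕ}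
    (hm : Mt N c x u h (.gho q' m)) : h = .gho q m := by
  cases h with
  | gho q2 j =>
    obtain ⟨h1, h2, -, h3, -⟩ := hm
    rw [hq', SimpleGraph.dist_self] at h3
    have h4 : x = c.ow q2 := hc.conn.dist_eq_zero_iff.1 h3
    have h5 : q2 = q := hc.k8 q2 q (by rw [← h4, hq]) (by rw [h2, hfl])
    rw [h1, h5]
  | core z => exact hm.elim
  | tru z j => exact hm.elim
  | fan z l => exact hm.elim

theorem own_right {K : Type} (hc : CoreAx N e c) {x : V} {q' : Q} (hq : c.ow q = x)
    (hq' : c.ow q' = u) (hfl : c.fl q' = c.fl q) {h' : GH V Q K} {m : ℕ}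
    (hm : Mt N c x u (.gho q m) h') : h' = .gho q' m := by
  cases h' with
  | gho q2 j =>
    obtain ⟨h1, h2, -, h3, -⟩ := hm
    rw [hq, SimpleGraph.dist_self] at h3
    have h4 : u = c.ow q2 := hc.conn.dist_eq_zero_iff.1 h3.symm
    have h5 : q2 = q' := hc.k8 q2 q' (by rw [← h4, hq']) (by rw [← h2, hfl])
    rw [h1, h5]
  | core z => exact hm.elim
  | tru z j => exact hm.elim
  | fan z l => exact hm.elim

/-- Existence of own ghosts in a piece `false`. -/
theorem ok_own (hu : s.rp u = u) (hq : c.ow q = u) {i : ℕ} (hi : 1 ≤ i) (hi' : i ≤ 2 * N) :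
    okT N e c s (.nat false u (.gho q i) : TH V Q (Kd N Λ B FB)) := by
  refine ⟨hu, ⟨hi, hi'⟩, ?_⟩
  rcases Nat.lt_or_eq_of_le hi' with h | h
  · left
    simp only [lev, GH.own, GH.ht, hq, SimpleGraph.dist_self, dep]
    simp
    omega
  · right
    exact ⟨rfl, q, hq, by rw [h]⟩

section pairs

variable [Fintype Λ] [Fintype B] [Fintype FB]

/-- Two own ghosts. -/
theorem pair_own (hTok : StTok) (hTd : StTdist) (hGd : StGdist) (hMt : StMt) (hP : Par N e)
    (hc : CoreAx N e c) (hs : ChAx N c s) {x : V} (hT : TS N c x = TS N c u) {q' : Q}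
    (hq : c.ow q = x) (hq' : c.ow q' = u) (hfl : c.fl q' = c.fl q) {y y' : TV N e c s}
    {g g' : GV N e c} {i j : ℕ} (hi : 1 ≤ i) (hj : 1 ≤ j) (hy : y.1 = .nat false u (.gho q' j))
    (hy' : y'.1 = .nat false u (.gho q' i)) (hg : g.1 = .gho q j) (hg' : g'.1 = .gho q i) :
    PairEq N e (TG N e c s) (tL N e c s) (GG N e c) (gL N e c) y y' g g' := by
  have hN := par_le hP
  have hu : s.rp u = u := (hy ▸ y.2 : okT N e c s (.nat false u (.gho q' j))).1
  have hd1 := T_own hTd hP hc hs hq' hi hj hy hy'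
  have hd2 : (GG N e c).edist g g' = ((j - i + (i - j) : ℕ) : ℕ∞) :=
    (hGd.gho N e c hP hc g g' q j hg).1 i hg'
  refine pairEq_mk ?_ hd1 hd2 fun hD p κ => ?_
  · change tl N e c s y'.1 = gl N e c g'.1
    rw [hy', hg']
    exact (lab_own hMt hP hc hT hq hq' hfl i).symm
  rw [win_iff hd1, win_iff hd2]
  constructor
  · rintro ⟨q0, h1, h2, h3, z, h4, h5, h6⟩
    refine ⟨q0, h1, h2, h3, ?_⟩
    obtain ⟨h0, hz⟩ := T_near hTok hTd hP hc hs hq' hj hy (z := z)
      (by rw [h4]; exact_mod_cast (by omega : p ≤ 2 * N))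
    by_cases hm : ∃ m, h0 = .gho q' m
    · obtain ⟨m, rfl⟩ := hm
      have hmo : 1 ≤ m ∧ m ≤ 2 * N := (hz ▸ z.2 : okT N e c s (.nat false u (.gho q' m))).2.1
      have e1 := T_own hTd hP hc hs hq' hmo.1 hj hy hz
      have e2 := T_own hTd hP hc hs hq' hi hmo.1 hz hy'
      rw [h4] at e1
      rw [h5] at e2
      refine ⟨⟨.gho q m, hmo⟩, ?_, ?_, ?_⟩
      · rw [(hGd.gho N e c hP hc g ⟨.gho q m, hmo⟩ q j hg).1 m rfl, ← e1]
      · rw [(hGd.gho N e c hP hc ⟨.gho q m, hmo⟩ g' q m rfl).1 i hg', ← e2]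
      · change κ ∈ gl N e c (.gho q m)
        rw [lab_own hMt hP hc hT hq hq' hfl m]
        have : κ ∈ tl N e c s z.1 := h6
        rwa [hz] at this
    · exfalso
      have hz' : ∀ m, z.1 ≠ .nat false u (.gho q' m) := fun m h => hm ⟨m, by
        rw [hz] at h; injection h⟩
      have e1 := T_oth hTok hTd hP hc hs hq' hj hy (z := z) (by rw [hz]; rfl) hz'
      have e2 := T_oth hTok hTd hP hc hs hq' hi hy' (z := z) (by rw [hz]; rfl) hz'
      rw [h4] at e1
      rw [SimpleGraph.edist_comm, h5] at e2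
      have e1' : p = j + tlev N c z.1 := by exact_mod_cast e1
      have e2' : q0 = i + tlev N c z.1 := by exact_mod_cast e2
      omega
  · rintro ⟨q0, h1, h2, h3, z, h4, h5, h6⟩
    refine ⟨q0, h1, h2, h3, ?_⟩
    by_cases hm : ∃ m, z.1 = .gho q m
    · obtain ⟨m, hz⟩ := hm
      have hmo : 1 ≤ m ∧ m ≤ 2 * N := (hz ▸ z.2 : okG N e c (.gho q m))
      have e1 := (hGd.gho N e c hP hc g z q j hg).1 m hz
      have e2 := (hGd.gho N e c hP hc z g' q m hz).1 i hg'
      rw [h4] at e1
      rw [h5] at e2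
      refine ⟨⟨_, ok_own hu hq' hmo.1 hmo.2⟩, ?_, ?_, ?_⟩
      · exact (T_own hTd hP hc hs hq' (z := ⟨_, ok_own hu hq' hmo.1 hmo.2⟩) hmo.1 hj hy
          rfl).trans e1.symm
      · exact (T_own hTd hP hc hs hq' (y := ⟨_, ok_own hu hq' hmo.1 hmo.2⟩) hi hmo.1 rfl
          hy').trans e2.symm
      · change κ ∈ gl N e c (.gho q' m)
        rw [← lab_own hMt hP hc hT hq hq' hfl m]
        have : κ ∈ gl N e c z.1 := h6
        rwa [hz] at this
    · exfalso
      push Not at hm
      have e1 := (hGd.gho N e c hP hc g z q j hg).2 hm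
      have e2 := (hGd.gho N e c hP hc g' z q i hg').2 hm
      rw [h4] at e1
      rw [SimpleGraph.edist_comm, h5] at e2
      have e1' : p = j + lev N c (c.ow q) z.1 := by exact_mod_cast e1
      have e2' : q0 = i + lev N c (c.ow q) z.1 := by exact_mod_cast e2
      omega

/-- An own ghost and another hub. -/
theorem pair_oth (hPb : StPb) (hTok : StTok) (hTd : StTdist) (hTp : StTpos) (hGd : StGdist)
    (hGp : StGpos) (hMt : StMt) (hP : Par N e)
    (hc : CoreAx N e c) (hs : ChAx N c s) {x : V} (hT : TS N c x = TS N c u) {q' : Q}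
    (hq : c.ow q = x) (hq' : c.ow q' = u) (hfl : c.fl q' = c.fl q) {y y' : TV N e c s}
    {g g' : GV N e c} {j : ℕ} {h' : GH V Q (Kd N Λ B FB)} (hj : 1 ≤ j)
    (hy : y.1 = .nat false u (.gho q' j)) (hy' : y'.1 = .nat false u h')
    (hg : g.1 = .gho q j) (hm : Mt N c x u g'.1 h') (hl : lev N c x g'.1 < 2 * N)
    (hno : ∀ m, g'.1 ≠ .gho q m) :
    PairEq N e (TG N e c s) (tL N e c s) (GG N e c) (gL N e c) y y' g g' := by
  have hN := par_le hP
  have hu : s.rp u = u := (hy ▸ y.2 : okT N e c s (.nat false u (.gho q' j))).1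
  have hlev := hMt.lev N c x u _ _ hm
  have hno' : ∀ m, y'.1 ≠ .nat false u (.gho q' m) := fun m h => by
    rw [hy'] at h
    injection h with _ _ h
    subst h
    exact hno m (own_left hc hq hq' hfl hm)
  have hty' : tlev N c y'.1 = lev N c u h' := by rw [hy']; rfl
  have hd1 : (TG N e c s).edist y y' = ((j + lev N c x g'.1 : ℕ) : ℕ∞) := by
    rw [T_oth hTok hTd hP hc hs hq' hj hy (by rw [hy']; rfl) hno', hty', hlev]
  have hd2 : (GG N e c).edist g g' = ((j + lev N c x g'.1 : ℕ) : ℕ∞) := by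
    rw [(hGd.gho N e c hP hc g g' q j hg).2 hno, hq]
  refine pairEq_mk ?_ hd1 hd2 fun hD p κ => ?_
  · change tl N e c s y'.1 = gl N e c g'.1
    rw [hy']
    exact (hMt.lab N e c hP hc x u hT _ _ hm hl).symm
  have hna : NA e c x g'.1 := NA_of_lt hPb hP hc hs (by omega)
  have hna' : NA e c u h' := NA_Mt hPb hMt hP hc hs hT hm hna
  have hok' : okG N e c h' := by
    have := y'.2
    rw [hy'] at this
    exact this.2.1
  have hokr : okT N e c s (.nat false u (.core u) : TH V Q (Kd N Λ B FB)) := by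
    refine ⟨hu, trivial, Or.inl ?_⟩
    simp [lev, GH.own, GH.ht]
  have hg0 : okG N e c (.core x : GH V Q (Kd N Λ B FB)) := trivial
  rw [win_iff hd1, win_iff hd2]
  constructor
  · rintro ⟨q0, h1, h2, h3, z, h4, h5, h6⟩
    refine ⟨q0, h1, h2, h3, ?_⟩
    obtain ⟨h0, hz⟩ := T_near hTok hTd hP hc hs hq' hj hy (z := z)
      (by rw [h4]; exact_mod_cast (by omega : p ≤ 2 * N))
    by_cases hmm : ∃ m, h0 = .gho q' m
    · obtain ⟨m, rfl⟩ := hmm
      have hmo : 1 ≤ m ∧ m ≤ 2 * N := (hz ▸ z.2 : okT N e c s (.nat false u (.gho q' m))).2.1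
      have e1 := T_own hTd hP hc hs hq' hmo.1 hj hy hz
      have e2 := T_oth hTok hTd hP hc hs hq' hmo.1 hz (z := y') (by rw [hy']; rfl) hno'
      rw [h4] at e1
      rw [h5, hty', ← hlev] at e2
      refine ⟨⟨.gho q m, hmo⟩, ?_, ?_, ?_⟩
      · rw [(hGd.gho N e c hP hc g ⟨.gho q m, hmo⟩ q j hg).1 m rfl, ← e1]
      · rw [(hGd.gho N e c hP hc ⟨.gho q m, hmo⟩ g' q m rfl).2 hno, hq, ← e2]
      · change κ ∈ gl N e c (.gho q m)
        rw [lab_own hMt hP hc hT hq hq' hfl m]
        have : κ ∈ tl N e c s z.1 := h6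
        rwa [hz] at this
    · have hz' : ∀ m, z.1 ≠ .nat false u (.gho q' m) := fun m h => hmm ⟨m, by
        rw [hz] at h; injection h⟩
      have e1 := T_oth hTok hTd hP hc hs hq' hj hy (z := z) (by rw [hz]; rfl) hz'
      rw [h4] at e1
      have e1' : p = j + tlev N c z.1 := by exact_mod_cast e1
      have hroot := hTd.root N e c s hP hc hs ⟨_, hokr⟩ z false u rfl (by rw [hz]; rfl)
      have hzz := (hTp N e c s hP hc hs ⟨_, hokr⟩ y' z false u (p - j) q0 rfl (by rw [hy']; rfl)
        (by rw [hty']; omega)).1 ⟨by rw [hroot]; exact_mod_cast (by omega : tlev N c z.1 = p - j), h5⟩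
      rw [hy', tpar_iter] at hzz
      obtain ⟨-, j2, j3⟩ := pb_iter hPb hP hc hs false (u := x) q0 g'.2 (by omega) (by omega) hna
      have hmi := Mt_iter hPb hMt hP hc hs hT q0 g'.2 hm (by omega) (by omega) hna
      have hlab := hMt.lab N e c hP hc x u hT _ _ hmi (by omega)
      have hpos := (hGp.pos N e c s hP hc hs ⟨_, hg0⟩ g' ⟨_, j2⟩ x (p - j) q0 rfl (by omega)
        (by omega) hna).2 rfl
      have hnz : ∀ m, (pb N e c s false x)^[q0] g'.1 ≠ .gho q m := fun m h => by
        rw [h] at hmi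
        have := own_right hc hq hq' hfl hmi
        rw [this] at hzz
        exact hz' m hzz
      refine ⟨⟨_, j2⟩, ?_, hpos.2, ?_⟩
      · rw [(hGd.gho N e c hP hc g ⟨_, j2⟩ q j hg).2 hnz, hq]
        exact_mod_cast (by
          change j + lev N c x ((pb N e c s false x)^[q0] g'.1) = p
          omega)
      · change κ ∈ gl N e c _
        rw [hlab]
        have : κ ∈ tl N e c s z.1 := h6
        rwa [hzz] at this
  · rintro ⟨q0, h1, h2, h3, z, h4, h5, h6⟩
    refine ⟨q0, h1, h2, h3, ?_⟩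
    by_cases hmm : ∃ m, z.1 = .gho q m
    · obtain ⟨m, hz⟩ := hmm
      have hmo : 1 ≤ m ∧ m ≤ 2 * N := (hz ▸ z.2 : okG N e c (.gho q m))
      have e1 := (hGd.gho N e c hP hc g z q j hg).1 m hz
      have e2 := (hGd.gho N e c hP hc z g' q m hz).2 hno
      rw [h4] at e1
      rw [h5, hq] at e2
      refine ⟨⟨_, ok_own hu hq' hmo.1 hmo.2⟩, ?_, ?_, ?_⟩
      · exact (T_own hTd hP hc hs hq' (z := ⟨_, ok_own hu hq' hmo.1 hmo.2⟩) hmo.1 hj hy
          rfl).trans e1.symm
      · exact (T_oth hTok hTd hP hc hs hq' (y := ⟨_, ok_own hu hq' hmo.1 hmo.2⟩) hmo.1 rfl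
          (z := y') (by rw [hy']; rfl) hno').trans (by rw [hty', ← hlev]; exact e2.symm)
      · change κ ∈ gl N e c (.gho q' m)
        rw [← lab_own hMt hP hc hT hq hq' hfl m]
        have : κ ∈ gl N e c z.1 := h6
        rwa [hz] at this
    · push Not at hmm
      have e1 := (hGd.gho N e c hP hc g z q j hg).2 hmm
      rw [h4, hq] at e1
      have e1' : p = j + lev N c x z.1 := by exact_mod_cast e1
      have e3 := hGd.core N e c hP hc ⟨_, hg0⟩ z x rfl
      have hzz := (hGp.pos N e c s hP hc hs ⟨_, hg0⟩ g' z x (p - j) q0 rfl (by omega)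
        (by omega) hna).1 ⟨by rw [e3]; exact_mod_cast (by omega : lev N c x z.1 = p - j), h5⟩
      have hmi := Mt_iter hPb hMt hP hc hs hT q0 g'.2 hm (by omega) (by omega) hna
      have hlab := hMt.lab N e c hP hc x u hT _ _ hmi (by rw [← hzz]; omega)
      obtain ⟨k1, k2, k3⟩ := okT_iter hTok hP hc hs q0 y'.1 y'.2 (by omega)
      have hpos := (hTp N e c s hP hc hs ⟨_, hokr⟩ y' ⟨_, k1⟩ false u (p - j) q0 rfl
        (by rw [hy']; rfl) (by rw [hty']; omega)).2 rfl
      have hnz : ∀ m, (tpar N e c s)^[q0] y'.1 ≠ .nat false u (.gho q' m) := fun m h => by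
        rw [hy', tpar_iter] at h
        injection h with _ _ h
        rw [h, ← hzz] at hmi
        exact hmm m (own_left hc hq hq' hfl hmi)
      refine ⟨⟨_, k1⟩, ?_, hpos.2, ?_⟩
      · rw [T_oth hTok hTd hP hc hs hq' hj hy (z := ⟨_, k1⟩) (by rw [k3, hy']; rfl) hnz]
        exact_mod_cast (by omega : j + tlev N c ((tpar N e c s)^[q0] y'.1) = p)
      · change κ ∈ tl N e c s ((tpar N e c s)^[q0] y'.1)
        rw [hy', tpar_iter]
        change κ ∈ gl N e c _
        rw [← hlab, ← hzz]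
        exact h6

end pairs

end

theorem pNgho (hPb : StPb) (hTok : StTok) (hTd : StTdist) (hTp : StTpos) (hGd : StGdist)
    (hGp : StGpos) (hMt : StMt) : StNgho := by
  intro V Q Λ B FB _ _ _ N e c s hP hc hs q q' j y g hg hq' hfl hy
  have hN := par_le hP
  have hu : s.rp (s.rp (c.ow q)) = s.rp (c.ow q) := rp_idem hs (c.ow q)
  have hT : TS N c (c.ow q) = TS N c (s.rp (c.ow q)) := (hs.rp1 (c.ow q)).symm
  obtain ⟨x, hq⟩ : ∃ x, c.ow q = x := ⟨_, rfl⟩
  rw [hq] at hq' hy hu hT
  generalize s.rp x = u at hy hu hT hq'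
  have hjo : 1 ≤ j ∧ j ≤ 2 * N := (hg ▸ g.2 : okG N e c (.gho q j))
  constructor
  · intro y' hd
    obtain ⟨h', hy'⟩ := T_near hTok hTd hP hc hs hq' hjo.1 hy hd
    by_cases hm : ∃ m, h' = .gho q' m
    · obtain ⟨m, rfl⟩ := hm
      have hmo : 1 ≤ m ∧ m ≤ 2 * N := (hy' ▸ y'.2 : okT N e c s (.nat false u (.gho q' m))).2.1
      exact ⟨⟨.gho q m, hmo⟩, pair_own hTok hTd hGd hMt hP hc hs hT hq hq' hfl hmo.1 hjo.1 hy hy'
        hg rfl⟩
    · have hno' : ∀ m, y'.1 ≠ .nat false u (.gho q' m) := fun m h => hm ⟨m, by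
        rw [hy'] at h; injection h⟩
      have e1 := T_oth hTok hTd hP hc hs hq' hjo.1 hy (z := y') (by rw [hy']; rfl) hno'
      rw [e1] at hd
      have hd' : j + tlev N c y'.1 ≤ 2 * N := by exact_mod_cast hd
      rw [hy'] at hd'
      have hl : lev N c u h' < 2 * N := by
        change j + lev N c u h' ≤ 2 * N at hd'
        omega
      have hok' : okG N e c h' := by
        have := y'.2
        rw [hy'] at this
        exact this.2.1
      have hnf : ∀ z l, h' ≠ .fan z l := by
        rintro z l rfl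
        have : c.G.dist u z + 2 * N < 2 * N := hl
        omega
      obtain ⟨h, h1, h2⟩ := hMt.ex N e c hP hc u x hT.symm h' hok' (by
        have : c.G.dist u (h'.own c) + h'.ht N < 2 * N := hl
        omega) hnf
      have h3 := hMt.symm N c u x h' h h2
      refine ⟨⟨h, h1⟩, pair_oth hPb hTok hTd hTp hGd hGp hMt hP hc hs hT hq hq' hfl hjo.1 hy hy' hg
        (g' := ⟨h, h1⟩) h3 (by rw [hMt.lev N c x u _ _ h3]; exact hl) fun m hh => ?_⟩
      change h = _ at hh
      rw [hh] at h3
      exact hm ⟨m, own_right hc hq hq' hfl h3⟩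
  · intro g' hd
    by_cases hm : ∃ m, g'.1 = .gho q m
    · obtain ⟨m, hg'⟩ := hm
      have hmo : 1 ≤ m ∧ m ≤ 2 * N := (hg' ▸ g'.2 : okG N e c (.gho q m))
      exact ⟨⟨_, ok_own hu hq' hmo.1 hmo.2⟩, pair_own hTok hTd hGd hMt hP hc hs hT hq hq' hfl hmo.1
        hjo.1 hy rfl hg hg'⟩
    · push Not at hm
      have e1 := (hGd.gho N e c hP hc g g' q j hg).2 hm
      rw [e1, hq] at hd
      have hd' : j + lev N c x g'.1 ≤ 2 * N := by exact_mod_cast hd
      have hl : lev N c x g'.1 < 2 * N := by omega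
      have hnf : ∀ z l, g'.1 ≠ .fan z l := by
        intro z l hh
        rw [hh] at hl
        have : c.G.dist x z + 2 * N < 2 * N := hl
        omega
      obtain ⟨h', h1, h2⟩ := hMt.ex N e c hP hc x u hT g'.1 g'.2 (by
        have : c.G.dist x (g'.1.own c) + g'.1.ht N < 2 * N := hl
        omega) hnf
      have h3 := hMt.lev N c x u _ _ h2
      have hok : okT N e c s (.nat false u h') := ⟨hu, h1, Or.inl (by
        show lev N c u h' ≤ dep N false
        simp only [dep]
        simp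
        omega)⟩
      exact ⟨⟨_, hok⟩, pair_oth hPb hTok hTd hTp hGd hGp hMt hP hc hs hT hq hq' hfl hjo.1 hy
        (y' := ⟨_, hok⟩) rfl hg h2 hl hm⟩

end Pool.Agent.Helper9.LD
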